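import Mathlib

set_option autoImplicit false

open MeasureTheory

namespace Pool.Agent.Work.MP_0ac5c2_an.Model

noncomputable section

/-- Normalised Lebesgue measure on the unit circle, written as `ℝ/ℤ`
(the point `x` stands for `exp (2 π i x)`). -/
abbrev circleMeasure : Measure UnitAddCircle := AddCircle.haarAddCircle

/-- `L²` of the unit circle. -/
abbrev L2 : Type := Lp ℂ 2 circleMeasure

/-- `L^∞` of the unit circle. -/
abbrev Linfty : Type := Lp ℂ ⊤ circleMeasure

/-- Multiplication by `φ ∈ L^∞`, an operator on `L²`: `mulBy φ f = φ f` almost everywhere. -/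
def mulBy (φ : Linfty) : L2 →L[ℂ] L2 :=
  (ContinuousLinearMap.mul ℂ ℂ).holderL circleMeasure ⊤ 2 2 φ

/-- The `n`-th Fourier coefficient of an `L²` function is its inner product with the `n`-th
character. -/
lemma coeff_eq (f : L2) (n : ℤ) : fourierCoeff f n = inner ℂ (fourierLp 2 n : L2) f := by
  rw [← fourierBasis_repr, HilbertBasis.repr_apply_apply, coe_fourierBasis]

/-- The Hardy space `H²`: the functions in `L²` of the circle all of whose Fourier coefficients
of negative index vanish. -/
def H2 : Submodule ℂ L2 where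
  carrier := {f | ∀ n : ℤ, n < 0 → fourierCoeff f n = 0}
  add_mem' := by
    intro f g hf hg n hn
    rw [coeff_eq, inner_add_right, ← coeff_eq, ← coeff_eq, hf n hn, hg n hn, add_zero]
  zero_mem' := by
    intro n _
    rw [coeff_eq, inner_zero_right]
  smul_mem' := by
    intro c f hf n hn
    rw [coeff_eq, inner_smul_right, ← coeff_eq, hf n hn, mul_zero]

/-- An inner function, given by its boundary values: a function in `L^∞` of the circle of
modulus one almost everywhere, all of whose Fourier coefficients of negative index vanish. -/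
structure IsInner (Θ : Linfty) : Prop where
  /-- `|Θ| = 1` almost everywhere on the circle. -/
  norm_eq_one : ∀ᵐ x ∂circleMeasure, ‖Θ x‖ = 1
  /-- `Θ` is the boundary function of a bounded holomorphic function in the disk. -/
  analytic : ∀ n : ℤ, n < 0 → fourierCoeff Θ n = 0

/-- The model space `K_Θ = H² ⊖ Θ H²`: the functions in `H²` which are orthogonal to `Θ h` for
every `h ∈ H²`. -/
def modelSpace (Θ : Linfty) : Submodule ℂ L2 :=
  H2 ⊓ (H2.map (mulBy Θ : L2 →ₗ[ℂ] L2))ᗮ

lemma isClosed_H2 : IsClosed (H2 : Set L2) := by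
  have : (H2 : Set L2) = ⋂ n : ℤ, ⋂ _ : n < 0, {f : L2 | inner ℂ (fourierLp 2 n : L2) f = 0} := by
    ext f
    simp only [Set.mem_iInter, Set.mem_ofPred_eq, SetLike.mem_coe]
    constructor
    · intro h n hn
      rw [← coeff_eq]; exact h n hn
    · intro h n hn
      rw [coeff_eq]; exact h n hn
  rw [this]
  refine isClosed_iInter fun n => isClosed_iInter fun _ => isClosed_eq ?_ continuous_const
  exact continuous_const.inner continuous_id

instance (Θ : Linfty) : CompleteSpace (modelSpace Θ) := by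
  have : IsClosed ((modelSpace Θ : Submodule ℂ L2) : Set L2) := by
    rw [modelSpace, Submodule.coe_inf]
    exact isClosed_H2.inter (Submodule.isClosed_orthogonal _)
  exact this.completeSpace_coe

/-- The truncated Toeplitz operator `A f = P_Θ (φ f)` on the model space `K_Θ`, where `P_Θ` is the
orthogonal projection of `L²` onto `K_Θ`. -/
def truncatedToeplitz (Θ φ : Linfty) : modelSpace Θ →L[ℂ] modelSpace Θ :=
  (modelSpace Θ).orthogonalProjectionOnto ∘L mulBy φ ∘L (modelSpace Θ).subtypeL

/-! ### Multiplication operators -/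

lemma coeFn_mulBy (φ : Linfty) (f : L2) : mulBy φ f =ᵐ[circleMeasure] fun x => φ x * f x := by
  have := (ContinuousLinearMap.mul ℂ ℂ).coeFn_holder (r := 2) φ f
  simpa [mulBy] using this

/-- multiplication by the `m`-th character -/
def shift (m : ℤ) : L2 →L[ℂ] L2 := mulBy (fourierLp ⊤ m)

lemma coeFn_shift (m : ℤ) (f : L2) :
    shift m f =ᵐ[circleMeasure] fun x => fourier m x * f x := by
  filter_upwards [coeFn_mulBy (fourierLp ⊤ m) f, coeFn_fourierLp (T := 1) ⊤ m] with x h1 h2
  rw [shift, h1, h2]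

lemma shift_shift (m k : ℤ) (f : L2) : shift m (shift k f) = shift (m + k) f := by
  apply Lp.ext
  filter_upwards [coeFn_shift m (shift k f), coeFn_shift k f, coeFn_shift (m + k) f] with x h1 h2 h3
  rw [h1, h2, h3, fourier_add, mul_assoc]

lemma shift_zero (f : L2) : shift 0 f = f := by
  apply Lp.ext
  filter_upwards [coeFn_shift 0 f] with x h1
  rw [h1, fourier_zero, one_mul]

lemma inner_shift (m : ℤ) (f g : L2) : inner ℂ (shift m f) g = inner ℂ f (shift (-m) g) := by
  rw [L2.inner_def, L2.inner_def]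
  apply integral_congr_ae
  filter_upwards [coeFn_shift m f, coeFn_shift (-m) g] with x h1 h2
  rw [h1, h2, fourier_neg]
  simp only [RCLike.inner_apply, map_mul]
  ring

lemma mulBy_shift (φ : Linfty) (m : ℤ) (f : L2) : mulBy φ (shift m f) = shift m (mulBy φ f) := by
  apply Lp.ext
  filter_upwards [coeFn_mulBy φ (shift m f), coeFn_shift m f, coeFn_shift m (mulBy φ f),
    coeFn_mulBy φ f] with x h1 h2 h3 h4
  rw [h1, h2, h3, h4]
  ring

/-- the `n`-th character in `L²` -/
abbrev ch (n : ℤ) : L2 := fourierLp 2 n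

lemma shift_ch (m n : ℤ) : shift m (ch n) = ch (m + n) := by
  apply Lp.ext
  filter_upwards [coeFn_shift m (ch n), coeFn_fourierLp (T := 1) 2 n,
    coeFn_fourierLp (T := 1) 2 (m + n)] with x h1 h2 h3
  rw [h1, h2, h3, fourier_add]

lemma inner_ch_shift (m n : ℤ) (f : L2) : inner ℂ (ch n) (shift m f) = inner ℂ (ch (n - m)) f := by
  have := inner_shift (-m) (ch n) f
  rw [neg_neg] at this
  rw [← this, shift_ch]
  congr 2
  ring

lemma mem_H2 (f : L2) : f ∈ H2 ↔ ∀ n : ℤ, n < 0 → inner ℂ (ch n) f = 0 := by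
  constructor
  · intro h n hn
    rw [← coeff_eq]; exact h n hn
  · intro h n hn
    rw [coeff_eq]; exact h n hn

lemma inner_ch_mulBy_ch (φ : Linfty) (n k : ℤ) :
    inner ℂ (ch n) (mulBy φ (ch k)) = fourierCoeff φ (n - k) := by
  rw [L2.inner_def, fourierCoeff]
  apply integral_congr_ae
  filter_upwards [coeFn_mulBy φ (ch k), coeFn_fourierLp (T := 1) 2 n,
    coeFn_fourierLp (T := 1) 2 k] with x h1 h2 h3
  rw [h1, h2, h3]
  simp only [RCLike.inner_apply, smul_eq_mul]
  rw [neg_sub, sub_eq_add_neg, fourier_add, ← fourier_neg]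
  ring

lemma mulBy_mem_H2 {Θ : Linfty} (hΘ : ∀ n : ℤ, n < 0 → fourierCoeff Θ n = 0) {h : L2}
    (hh : h ∈ H2) : mulBy Θ h ∈ H2 := by
  rw [mem_H2]
  intro n hn
  have h1 := hasSum_fourier_series_L2 (T := 1) h
  have h2 := h1.mapL (innerSL ℂ (ch n) ∘L mulBy Θ)
  have h3 : ∀ k : ℤ, (innerSL ℂ (ch n) ∘L mulBy Θ) (fourierCoeff h k • ch k) = 0 := by
    intro k
    rw [map_smul, ContinuousLinearMap.comp_apply, innerSL_apply_apply, inner_ch_mulBy_ch]
    rcases lt_or_ge k 0 with hk | hk
    · rw [hh k hk, zero_smul]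
    · rw [hΘ (n - k) (by omega), smul_zero]
  simp only [h3] at h2
  have h4 := h2.unique hasSum_zero
  simpa using h4

/-! ### The compressed shift -/

section Model

variable (Θ φ : Linfty)

/-- the compressed shift -/
def cshift : modelSpace Θ →L[ℂ] modelSpace Θ :=
  (modelSpace Θ).orthogonalProjectionOnto ∘L shift 1 ∘L (modelSpace Θ).subtypeL

/-- `P_Θ 1` -/
def k0 : modelSpace Θ := (modelSpace Θ).orthogonalProjectionOnto (ch 0)

lemma inner_proj (g : modelSpace Θ) (y : L2) :
    inner ℂ g ((modelSpace Θ).orthogonalProjectionOnto y) = inner ℂ (g : L2) y := by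
  exact Submodule.inner_orthogonalProjectionOnto_eq_of_mem_left g y

lemma inner_proj' (g : modelSpace Θ) (y : L2) :
    inner ℂ ((modelSpace Θ).orthogonalProjectionOnto y) g = inner ℂ y (g : L2) := by
  exact Submodule.inner_orthogonalProjectionOnto_eq_of_mem_right g y

variable {Θ} in
lemma smul_inner_right (g u : modelSpace Θ) (c : ℂ) : inner ℂ g (c • u) = c * inner ℂ g u := by
  rw [Submodule.coe_inner, Submodule.coe_inner, Submodule.coe_smul, inner_smul_right]

variable {Θ} in
lemma smul_inner_left (g u : modelSpace Θ) (c : ℂ) :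
    inner ℂ (c • u) g = starRingEnd ℂ c * inner ℂ u g := by
  rw [Submodule.coe_inner, Submodule.coe_inner, Submodule.coe_smul, inner_smul_left]

variable {Θ} in
lemma sub_inner_right (g u w : modelSpace Θ) :
    inner ℂ g u - inner ℂ g w = inner ℂ g (u - w) := by
  rw [Submodule.coe_inner, Submodule.coe_inner, Submodule.coe_inner, Submodule.coe_sub,
    inner_sub_right]

variable {Θ} in
lemma conj_inner (g u : modelSpace Θ) : starRingEnd ℂ (inner ℂ g u) = inner ℂ u g := by
  rw [Submodule.coe_inner, Submodule.coe_inner, inner_conj_symm]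

variable {Θ} in
lemma mem_H2_of (g : modelSpace Θ) : (g : L2) ∈ H2 := g.2.1

/-- the backward shift of `f` -/
def back (f : L2) : L2 := shift (-1) (f - (inner ℂ (ch 0) f : ℂ) • ch 0)

variable {Θ} in
lemma back_mem (hΘ : IsInner Θ) (f : modelSpace Θ) : back (f : L2) ∈ modelSpace Θ := by
  refine Submodule.mem_inf.2 ⟨?_, ?_⟩
  · rw [mem_H2]
    intro n hn
    rw [back, inner_ch_shift, inner_sub_right, inner_smul_right]
    have h1 : inner ℂ (ch (n - -1)) (ch 0 : L2) = if n - -1 = 0 then (1 : ℂ) else 0 :=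
      orthonormal_iff_ite.1 (orthonormal_fourier (T := 1)) _ _
    rw [h1]
    split_ifs with h
    · rw [h, mul_one, sub_self]
    · rw [mul_zero, sub_zero]
      exact (mem_H2 _).1 (mem_H2_of f) _ (by omega)
  · rw [Submodule.mem_orthogonal]
    rintro _ ⟨h, hh, rfl⟩
    simp only [ContinuousLinearMap.coe_coe]
    have hh1 : shift 1 h ∈ H2 := by
      rw [mem_H2]
      intro n hn
      rw [inner_ch_shift]
      exact (mem_H2 _).1 hh _ (by omega)
    have hz := inner_shift 1 (mulBy Θ h) ((f : L2) - (inner ℂ (ch 0) (f : L2) : ℂ) • ch 0)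
    rw [back, ← hz, inner_sub_right, inner_smul_right]
    have e1 : inner ℂ (shift 1 (mulBy Θ h)) (f : L2) = 0 := by
      rw [← mulBy_shift]
      exact (Submodule.mem_orthogonal _ _).1 f.2.2 _ ⟨shift 1 h, hh1, rfl⟩
    have e2 : inner ℂ (shift 1 (mulBy Θ h)) (ch 0) = 0 := by
      rw [← inner_conj_symm, inner_ch_shift]
      rw [(mem_H2 _).1 (mulBy_mem_H2 hΘ.analytic hh) _ (by omega), map_zero]
    rw [e1, e2, mul_zero, sub_zero]

variable {Θ} in
lemma adjoint_cshift (hΘ : IsInner Θ) (f : modelSpace Θ) :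
    ((ContinuousLinearMap.adjoint (cshift Θ) f : modelSpace Θ) : L2) = back f := by
  have : ContinuousLinearMap.adjoint (cshift Θ) f = ⟨back f, back_mem hΘ f⟩ := by
    refine ext_inner_left ℂ fun g => ?_
    rw [ContinuousLinearMap.adjoint_inner_right]
    rw [cshift, ContinuousLinearMap.comp_apply, inner_proj']
    change inner ℂ (shift 1 (g : L2)) (f : L2) =
      inner ℂ (g : L2) (shift (-1) ((f : L2) - (inner ℂ (ch 0) (f : L2) : ℂ) • ch 0))
    rw [← inner_shift, inner_sub_right, inner_smul_right]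
    have e2 : inner ℂ (shift 1 (g : L2)) (ch 0) = 0 := by
      rw [← inner_conj_symm, inner_ch_shift]
      rw [(mem_H2 _).1 (mem_H2_of g) _ (by omega), map_zero]
    rw [e2, mul_zero, sub_zero]
  rw [this]

variable {Θ} in
/-- `1 - S S* = k₀ ⊗ k₀` -/
lemma defect (hΘ : IsInner Θ) (f : modelSpace Θ) :
    f - cshift Θ (ContinuousLinearMap.adjoint (cshift Θ) f) = (inner ℂ (k0 Θ) f : ℂ) • k0 Θ := by
  rw [k0, inner_proj']
  have h1 : cshift Θ (ContinuousLinearMap.adjoint (cshift Θ) f) =
      (modelSpace Θ).orthogonalProjectionOnto ((f : L2) - (inner ℂ (ch 0) (f : L2) : ℂ) • ch 0) := by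
    rw [cshift, ContinuousLinearMap.comp_apply, ContinuousLinearMap.comp_apply,
      Submodule.subtypeL_apply]
    have := adjoint_cshift hΘ f
    rw [cshift] at this
    have e : (1 : ℤ) + -1 = 0 := by norm_num
    rw [this, back, shift_shift, e, shift_zero]
  rw [h1, map_sub, map_smul]
  simp

variable {Θ} in
/-- the displacement of a truncated Toeplitz operator -/
lemma displacement (hΘ : IsInner Θ) : ∃ u v : modelSpace Θ, ∀ f : modelSpace Θ,
    truncatedToeplitz Θ φ f - cshift Θ (truncatedToeplitz Θ φ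
      (ContinuousLinearMap.adjoint (cshift Θ) f)) =
      (inner ℂ (k0 Θ) f : ℂ) • u + (inner ℂ v f : ℂ) • k0 Θ := by
  refine ⟨(modelSpace Θ).orthogonalProjectionOnto (mulBy φ (ch 0)),
    (modelSpace Θ).orthogonalProjectionOnto (ContinuousLinearMap.adjoint (mulBy φ) (ch 0)) -
      (starRingEnd ℂ (inner ℂ (ch 0) (mulBy φ (ch 0)))) • k0 Θ, fun f => ?_⟩
  refine ext_inner_left ℂ fun g => ?_
  have e : (- -1 : ℤ) + -1 = 0 := by norm_num
  have h1 : inner ℂ g (cshift Θ (truncatedToeplitz Θ φ
      (ContinuousLinearMap.adjoint (cshift Θ) f))) =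
      inner ℂ ((g : L2) - (inner ℂ (ch 0) (g : L2) : ℂ) • ch 0)
        (mulBy φ ((f : L2) - (inner ℂ (ch 0) (f : L2) : ℂ) • ch 0)) := by
    rw [← ContinuousLinearMap.adjoint_inner_left (cshift Θ), truncatedToeplitz,
      ContinuousLinearMap.comp_apply, ContinuousLinearMap.comp_apply, Submodule.subtypeL_apply,
      inner_proj, adjoint_cshift hΘ, adjoint_cshift hΘ, back, back, mulBy_shift, inner_shift,
      shift_shift, e, shift_zero]
  have h2 : inner ℂ g (truncatedToeplitz Θ φ f) = inner ℂ (g : L2) (mulBy φ (f : L2)) := by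
    rw [truncatedToeplitz, ContinuousLinearMap.comp_apply, ContinuousLinearMap.comp_apply,
      Submodule.subtypeL_apply, inner_proj]
  have h3 : inner ℂ g (k0 Θ) = inner ℂ (g : L2) (ch 0) := by rw [k0, inner_proj]
  have h4 : inner ℂ (k0 Θ) f = inner ℂ (ch 0) (f : L2) := by rw [k0, inner_proj']
  simp only [inner_sub_right, inner_add_right, inner_smul_right, inner_sub_left,
    inner_smul_left, smul_inner_right, smul_inner_left, h1, h2, h3, h4, inner_proj, inner_proj',
    ContinuousLinearMap.adjoint_inner_left, map_sub, map_smul, inner_conj_symm]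
  ring

variable {Θ} in
lemma eig_lt (f : modelSpace Θ) (hf : f ≠ 0) (μ : ℂ) (h : cshift Θ f = μ • f) : ‖μ‖ < 1 := by
  by_contra hμ
  push Not at hμ
  have hfpos : 0 < ‖f‖ := norm_pos_iff.2 hf
  have hn : ‖shift 1 (f : L2)‖ = ‖f‖ := by
    have h1 := inner_shift 1 (f : L2) (shift 1 (f : L2))
    have e : (-1 : ℤ) + 1 = 0 := by norm_num
    rw [shift_shift, e, shift_zero] at h1
    rw [Submodule.coe_norm, @norm_eq_sqrt_re_inner ℂ, @norm_eq_sqrt_re_inner ℂ _ _ _ _ (f : L2), h1]
  have hP : ‖(modelSpace Θ).orthogonalProjectionOnto (shift 1 (f : L2))‖ ≥ ‖shift 1 (f : L2)‖ := by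
    have : (modelSpace Θ).orthogonalProjectionOnto (shift 1 (f : L2)) = μ • f := h
    rw [this, hn, norm_smul]
    nlinarith
  have hmem : (((modelSpace Θ).orthogonalProjectionOnto (shift 1 (f : L2)) : modelSpace Θ) : L2) =
      shift 1 (f : L2) := by
    have hpy := Submodule.norm_sq_eq_add_norm_sq_projection (shift 1 (f : L2)) (modelSpace Θ)
    have h0 : ‖(modelSpace Θ)ᗮ.orthogonalProjectionOnto (shift 1 (f : L2))‖ = 0 := by
      have h2 := norm_nonneg ((modelSpace Θ)ᗮ.orthogonalProjectionOnto (shift 1 (f : L2)))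
      have h3 := norm_nonneg (shift 1 (f : L2))
      by_contra h4
      have h5 : 0 < ‖(modelSpace Θ)ᗮ.orthogonalProjectionOnto (shift 1 (f : L2))‖ :=
        lt_of_le_of_ne h2 (Ne.symm h4)
      nlinarith [mul_pos h5 h5]
    have h6 := (modelSpace Θ).starProjection_add_starProjection_orthogonal (shift 1 (f : L2))
    rw [norm_eq_zero] at h0
    rw [Submodule.starProjection_apply, Submodule.starProjection_apply, h0] at h6
    simpa using h6
  have hsh : shift 1 (f : L2) = μ • (f : L2) := by
    rw [← hmem]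
    have : (modelSpace Θ).orthogonalProjectionOnto (shift 1 (f : L2)) = μ • f := h
    rw [this]; rfl
  have hμ0 : μ ≠ 0 := by
    intro h0; rw [h0, norm_zero] at hμ; linarith
  have hall : ∀ n : ℤ, inner ℂ (ch n) (f : L2) = 0 := by
    have hneg : ∀ n : ℤ, n < 0 → inner ℂ (ch n) (f : L2) = 0 := (mem_H2 _).1 (mem_H2_of f)
    have hstep : ∀ m : ℕ, inner ℂ (ch ((m : ℤ) - 1)) (f : L2) = 0 := by
      intro m
      induction m with
      | zero => exact hneg _ (by norm_num)
      | succ m ih =>
        have h7 := inner_ch_shift 1 (m : ℤ) (f : L2)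
        rw [ih, hsh, inner_smul_right] at h7
        have h8 := (mul_eq_zero.1 h7).resolve_left hμ0
        have : ((m + 1 : ℕ) : ℤ) - 1 = m := by push_cast; ring
        rw [this]; exact h8
    intro n
    rcases lt_or_ge n 0 with hn0 | hn0
    · exact hneg n hn0
    · have := hstep (n + 1).toNat
      rwa [Int.toNat_of_nonneg (by omega), add_sub_cancel_right] at this
  apply hf
  have h9 := hasSum_fourier_series_L2 (T := 1) (f : L2)
  have h10 : ∀ k : ℤ, fourierCoeff (f : L2) k • ch k = 0 := by
    intro k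
    rw [coeff_eq, hall k, zero_smul]
  simp only [h10] at h9
  have := h9.unique hasSum_zero
  exact Subtype.ext this

end Model

/-! ### Passage to matrices -/

section Mat

variable {n : ℕ} {E : Type*} [NormedAddCommGroup E] [InnerProductSpace ℂ E] [CompleteSpace E]
  (b : OrthonormalBasis (Fin n) ℂ E)

/-- the matrix of an operator in an orthonormal basis -/
def mat (R : E →L[ℂ] E) : Matrix (Fin n) (Fin n) ℂ :=
  Matrix.of fun i j => inner ℂ (b i) (R (b j))

lemma mat_mul (R₁ R₂ : E →L[ℂ] E) : mat b R₁ * mat b R₂ = mat b (R₁ ∘L R₂) := by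
  ext i j
  rw [Matrix.mul_apply]
  simp only [mat, Matrix.of_apply, ContinuousLinearMap.comp_apply]
  rw [← ContinuousLinearMap.adjoint_inner_left R₁, ← b.sum_inner_mul_inner]
  refine Finset.sum_congr rfl fun k _ => ?_
  rw [ContinuousLinearMap.adjoint_inner_left R₁]

lemma mat_adjoint (R : E →L[ℂ] E) :
    mat b (ContinuousLinearMap.adjoint R) = (mat b R).conjTranspose := by
  ext i j
  simp only [mat, Matrix.of_apply, Matrix.conjTranspose_apply]
  rw [ContinuousLinearMap.adjoint_inner_right, RCLike.star_def, inner_conj_symm]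

end Mat

/-- the matrix of a truncated Toeplitz operator in an orthonormal basis satisfies the
algebraic displacement condition -/
lemma exists_displacement {n : ℕ} {M : Matrix (Fin n) (Fin n) ℂ} {Θ φ : Linfty}
    (hΘ : IsInner Θ) (b : OrthonormalBasis (Fin n) ℂ (modelSpace Θ))
    (hMA : M = mat b (truncatedToeplitz Θ φ)) :
    ∃ T : Matrix (Fin n) (Fin n) ℂ, ∃ k u v : Fin n → ℂ,
      1 - T * T.conjTranspose = Matrix.vecMulVec k (star k) ∧
      (∀ μ : ℂ, ∀ x : Fin n → ℂ, x ≠ 0 → T.mulVec x = μ • x → ‖μ‖ < 1) ∧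
      M - T * M * T.conjTranspose = Matrix.vecMulVec u (star k) + Matrix.vecMulVec k (star v) := by
  obtain ⟨u, v, huv⟩ := displacement φ hΘ
  refine ⟨mat b (cshift Θ), fun i => inner ℂ (b i) (k0 Θ), fun i => inner ℂ (b i) u,
    fun i => inner ℂ (b i) v, ?_, ?_, ?_⟩
  · rw [← mat_adjoint, mat_mul]
    ext i j
    have h1 : (1 : Matrix (Fin n) (Fin n) ℂ) i j = inner ℂ (b i) (b j) := by
      rw [orthonormal_iff_ite.1 b.orthonormal, Matrix.one_apply]
    rw [Matrix.sub_apply, h1]
    simp only [mat, Matrix.of_apply, Matrix.vecMulVec_apply, ContinuousLinearMap.comp_apply]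
    rw [sub_inner_right, defect hΘ, smul_inner_right]
    simp only [Pi.star_apply, RCLike.star_def, conj_inner]
    ring
  · intro μ x hx hTx
    set f : modelSpace Θ := ∑ j, x j • b j with hf
    have hrep : ∀ i, inner ℂ (b i) f = x i := by
      intro i
      rw [hf, inner_sum]
      simp only [smul_inner_right]
      simp [orthonormal_iff_ite.1 b.orthonormal]
    refine eig_lt f ?_ μ ?_
    · intro h0
      apply hx
      funext i
      rw [← hrep i, h0, inner_zero_right]; rfl
    · apply b.repr.injective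
      ext i
      rw [b.repr_apply_apply, b.repr_apply_apply, smul_inner_right, hrep i]
      have h1 := congrFun hTx i
      rw [Pi.smul_apply, smul_eq_mul] at h1
      rw [← h1, hf, map_sum, inner_sum, Matrix.mulVec, dotProduct]
      refine Finset.sum_congr rfl fun j _ => ?_
      rw [map_smul, smul_inner_right, mat, Matrix.of_apply, mul_comm]
  · rw [hMA, ← mat_adjoint, mat_mul, mat_mul]
    ext i j
    rw [Matrix.sub_apply, Matrix.add_apply]
    simp only [mat, Matrix.of_apply, Matrix.vecMulVec_apply, ContinuousLinearMap.comp_apply]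
    rw [sub_inner_right, huv, inner_add_right, smul_inner_right, smul_inner_right]
    simp only [Pi.star_apply, RCLike.star_def, conj_inner]
    ring

end

end Pool.Agent.Work.MP_0ac5c2_an.Model
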