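import Mathlib

set_option autoImplicit false

open Matrix Filter Topology Polynomial
open scoped ComplexOrder

namespace Pool.Agent.Work.MP_0ac5c2_an


section
attribute [local instance] Matrix.linftyOpNormedRing Matrix.linftyOpNormedAlgebra

lemma tendsto_pow_norm_zero {n : ℕ} (hn : 0 < n) (T : Matrix (Fin n) (Fin n) ℂ)
  (h : ∀ μ : ℂ, ∀ x : Fin n → ℂ, x ≠ 0 → T *ᵥ x = μ • x → ‖μ‖ < 1) :
  Tendsto (fun N : ℕ => ‖T ^ N‖) atTop (𝓝 0) := by
  have : Nonempty (Fin n) := ⟨⟨0, hn⟩⟩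
  have hr : spectralRadius ℂ T < 1 := by
    have := spectrum.spectralRadius_lt_of_forall_lt T (r := 1) ?_
    · simpa using this
    · intro z hz
      have hz' : Module.End.HasEigenvalue (Matrix.toLin' T) z := by
        rw [Module.End.hasEigenvalue_iff_mem_spectrum]
        rwa [Matrix.spectrum_toLin']
      obtain ⟨x, hx⟩ := hz'.exists_hasEigenvector
      have h1 := h z x hx.2 (by simpa using hx.apply_eq_smul)
      exact_mod_cast h1
  obtain ⟨ρ, hρ1, hρ2⟩ := ENNReal.lt_iff_exists_nnreal_btwn.1 hr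
  have hG := spectrum.pow_nnnorm_pow_one_div_tendsto_nhds_spectralRadius T
  have hev : ∀ᶠ N : ℕ in atTop, ((‖T ^ N‖₊ : ENNReal) ^ (1 / N : ℝ)) < ρ := hG.eventually (gt_mem_nhds hρ1)
  have hρ3 : ρ < 1 := by exact_mod_cast hρ2
  refine squeeze_zero' (Eventually.of_forall fun _ => norm_nonneg _) ?_
    (NNReal.tendsto_coe.2 (NNReal.tendsto_pow_atTop_nhds_zero_of_lt_one hρ3))
  filter_upwards [hev, eventually_gt_atTop 0] with N hN hN0
  have h2 : (‖T ^ N‖₊ : ENNReal) < (ρ : ENNReal) ^ N := by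
    have := (ENNReal.rpow_lt_rpow_iff (z := (N : ℝ)) (by exact_mod_cast hN0)).2 hN
    rw [← ENNReal.rpow_mul, one_div, inv_mul_cancel₀ (by exact_mod_cast hN0.ne'), ENNReal.rpow_one,
      ENNReal.rpow_natCast] at this
    exact this
  have h3 : ‖T ^ N‖₊ < ρ ^ N := by exact_mod_cast h2
  exact_mod_cast h3.le
end


section
attribute [local instance] Matrix.linftyOpNormedRing Matrix.linftyOpNormedAlgebra

lemma tendsto_pow_zero_aux {n : ℕ} (hn : 0 < n) (T : Matrix (Fin n) (Fin n) ℂ)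
  (h : ∀ μ : ℂ, ∀ x : Fin n → ℂ, x ≠ 0 → T *ᵥ x = μ • x → ‖μ‖ < 1) :
  @Tendsto _ _ (fun N : ℕ => T ^ N) atTop (@nhds _ (Matrix.linftyOpNormedRing.toPseudoMetricSpace.toUniformSpace.toTopologicalSpace) 0) := by
  have key := tendsto_pow_norm_zero hn T h
  exact (tendsto_zero_iff_norm_tendsto_zero.2 key)
end

lemma tendsto_pow_zero {n : ℕ} (T : Matrix (Fin n) (Fin n) ℂ)
  (h : ∀ μ : ℂ, ∀ x : Fin n → ℂ, x ≠ 0 → T *ᵥ x = μ • x → ‖μ‖ < 1) :
  Tendsto (fun N : ℕ => T ^ N) atTop (𝓝 0) := by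
  rcases n.eq_zero_or_pos with rfl | hn
  · have : (fun N : ℕ => T ^ N) = fun _ => 0 := by
      funext N; exact Subsingleton.elim _ _
    rw [this]; exact tendsto_const_nhds
  exact tendsto_pow_zero_aux hn T h

lemma sum_formula {n : ℕ} (T : Matrix (Fin n) (Fin n) ℂ) (N : ℕ) :
    ∑ j ∈ Finset.range N, T ^ j * (1 - T * Tᴴ) * Tᴴ ^ j = 1 - T ^ N * Tᴴ ^ N := by
  induction N with
  | zero => simp
  | succ N ih =>
    rw [Finset.sum_range_succ, ih, pow_succ T N, pow_succ' Tᴴ N]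
    noncomm_ring

lemma star_dot_mulVec {n : ℕ} (A : Matrix (Fin n) (Fin n) ℂ) (x y : Fin n → ℂ) :
    star x ⬝ᵥ (A *ᵥ y) = star (Aᴴ *ᵥ x) ⬝ᵥ y := by
  rw [star_mulVec, conjTranspose_conjTranspose, dotProduct_mulVec]

lemma tendsto_conj_pow {n : ℕ} (T : Matrix (Fin n) (Fin n) ℂ)
    (hT : Tendsto (fun N : ℕ => T ^ N) atTop (𝓝 0)) :
    Tendsto (fun N : ℕ => Tᴴ ^ N) atTop (𝓝 0) := by
  have h1 : Continuous (fun A : Matrix (Fin n) (Fin n) ℂ => Aᴴ) := continuous_id.matrix_conjTranspose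
  have h2 := (h1.tendsto 0).comp hT
  simpa [Function.comp_def, conjTranspose_pow] using h2

/-- uniqueness for the displacement equation -/
lemma unique_displacement {n : ℕ} (T X : Matrix (Fin n) (Fin n) ℂ)
    (hT : Tendsto (fun N : ℕ => T ^ N) atTop (𝓝 0))
    (hX : X - T * X * Tᴴ = 0) : X = 0 := by
  have h1 : ∀ N : ℕ, X = T ^ N * X * Tᴴ ^ N := by
    intro N
    induction N with
    | zero => simp
    | succ N ih =>
      have hX' : X = T * X * Tᴴ := sub_eq_zero.1 hX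
      calc X = T ^ N * X * Tᴴ ^ N := ih
        _ = T ^ N * (T * X * Tᴴ) * Tᴴ ^ N := by rw [← hX']
        _ = T ^ (N + 1) * X * Tᴴ ^ (N + 1) := by rw [pow_succ T N, pow_succ' Tᴴ N]; noncomm_ring
  have h2 : Tendsto (fun N : ℕ => T ^ N * X * Tᴴ ^ N) atTop (𝓝 (0 * X * 0)) :=
    (hT.mul tendsto_const_nhds).mul (tendsto_conj_pow T hT)
  have h3 : Tendsto (fun N : ℕ => T ^ N * X * Tᴴ ^ N) atTop (𝓝 X) := by
    have : (fun N : ℕ => T ^ N * X * Tᴴ ^ N) = fun _ => X := by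
      funext N; exact (h1 N).symm
    rw [this]; exact tendsto_const_nhds
  have := tendsto_nhds_unique h3 h2
  simpa using this

lemma cyclic_aux {n : ℕ} (T : Matrix (Fin n) (Fin n) ℂ) (k y : Fin n → ℂ)
    (hT : Tendsto (fun N : ℕ => T ^ N) atTop (𝓝 0))
    (hk : 1 - T * Tᴴ = vecMulVec k (star k))
    (hy : ∀ j : ℕ, star y ⬝ᵥ (T ^ j *ᵥ k) = 0) : y = 0 := by
  have h1 : ∀ N : ℕ, star y ⬝ᵥ ((1 - T ^ N * Tᴴ ^ N) *ᵥ y) = 0 := by
    intro N
    rw [← sum_formula, hk, Matrix.sum_mulVec, dotProduct_sum]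
    refine Finset.sum_eq_zero fun j _ => ?_
    rw [← mulVec_mulVec, ← mulVec_mulVec, vecMulVec_mulVec, mulVec_smul, dotProduct_smul, hy j]
    simp
  have h2 : Tendsto (fun N : ℕ => (1 - T ^ N * Tᴴ ^ N)) atTop (𝓝 (1 - 0 * 0)) :=
    tendsto_const_nhds.sub (hT.mul (tendsto_conj_pow T hT))
  have h3 : Continuous (fun A : Matrix (Fin n) (Fin n) ℂ => star y ⬝ᵥ (A *ᵥ y)) := by
    fun_prop
  have h4 := (h3.tendsto _).comp h2
  have h5 : (fun N : ℕ => star y ⬝ᵥ ((1 - T ^ N * Tᴴ ^ N) *ᵥ y)) = fun _ => 0 := by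
    funext N; exact h1 N
  have h6 := tendsto_nhds_unique (h4.congr (fun N => (h1 N : _))) tendsto_const_nhds
  rw [← dotProduct_star_self_eq_zero]
  simpa using h6

lemma cyclic {n : ℕ} (T : Matrix (Fin n) (Fin n) ℂ) (k : Fin n → ℂ)
    (hT : Tendsto (fun N : ℕ => T ^ N) atTop (𝓝 0))
    (hk : 1 - T * Tᴴ = vecMulVec k (star k)) (u : Fin n → ℂ) :
    ∃ p : ℂ[X], aeval T p *ᵥ k = u := by
  let v : ℂ[X] →ₗ[ℂ] (Fin n → ℂ) :=
    { toFun := fun p => aeval T p *ᵥ k
      map_add' := by intro p q; simp [add_mulVec]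
      map_smul' := by intro c p; simp [smul_mulVec] }
  have hv : LinearMap.range v = ⊤ := by
    by_contra hne
    obtain ⟨f, hf0, hf⟩ := Submodule.exists_le_ker_of_lt_top _ (lt_top_iff_ne_top.2 hne)
    apply hf0
    have hfd : ∀ z, f z = (fun i => f (Pi.single i 1)) ⬝ᵥ z := by
      intro z
      have : z = ∑ i, z i • (Pi.single i 1 : Fin n → ℂ) := by
        ext j; simp [Finset.sum_apply, Pi.single_apply]
      conv_lhs => rw [this]
      simp only [map_sum, map_smul, dotProduct, smul_eq_mul]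
      exact Finset.sum_congr rfl fun i _ => mul_comm _ _
    have hy := cyclic_aux T k (star (fun i => f (Pi.single i 1))) hT hk (by
      intro j
      rw [star_star, ← hfd]
      have : T ^ j *ᵥ k = v (X ^ j) := by simp [v]
      rw [this]
      exact hf (LinearMap.mem_range_self v _))
    ext i
    have := congrFun hy i
    simpa using this
  have := (LinearMap.range_eq_top.1 hv) u
  exact this


/-- A self-adjoint idempotent of trace one is a rank one projection. -/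
lemma rank_one_proj {m : Type*} [Fintype m] [DecidableEq m] (B : Matrix m m ℂ)
    (hB2 : B * B = B) (hBh : Bᴴ = B) (htr : B.trace = 1) :
    ∃ z : m → ℂ, B = vecMulVec z (star z) := by
  have hB0 : B ≠ 0 := by
    rintro rfl; simp at htr
  obtain ⟨j, hj⟩ : ∃ j, B *ᵥ Pi.single j 1 ≠ 0 := by
    by_contra hcon
    push Not at hcon
    apply hB0
    ext i j
    have := congrFun (hcon j) i
    simpa [mulVec_single] using this
  set z0 := B *ᵥ Pi.single j 1 with hz0
  have hBz0 : B *ᵥ z0 = z0 := by rw [hz0, mulVec_mulVec, hB2]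
  have hc : (0 : ℂ) < star z0 ⬝ᵥ z0 := dotProduct_star_self_pos_iff.2 hj
  obtain ⟨hcre, hcim⟩ := Complex.pos_iff.1 hc
  set c : ℝ := (star z0 ⬝ᵥ z0).re with hcdef
  have hceq : star z0 ⬝ᵥ z0 = (c : ℂ) := by
    apply Complex.ext <;> simp [hcdef]
    exact hcim.symm
  set z : m → ℂ := ((Real.sqrt c : ℝ) : ℂ)⁻¹ • z0 with hz
  have hsq : ((Real.sqrt c : ℝ) : ℂ) * ((Real.sqrt c : ℝ) : ℂ) = (c : ℂ) := by
    rw [← Complex.ofReal_mul, Real.mul_self_sqrt hcre.le]
  have hsne : ((Real.sqrt c : ℝ) : ℂ) ≠ 0 := by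
    exact_mod_cast (Real.sqrt_pos.2 hcre).ne'
  have hzz : star z ⬝ᵥ z = 1 := by
    rw [hz, star_smul, smul_dotProduct, dotProduct_smul, hceq, smul_eq_mul, smul_eq_mul, ← hsq]
    simp only [Complex.star_def, map_inv₀, Complex.conj_ofReal]
    field_simp
  have hBz : B *ᵥ z = z := by rw [hz, mulVec_smul, hBz0]
  have hzB : star z ᵥ* B = star z := by
    have := congrArg star hBz
    rwa [star_mulVec, hBh] at this
  refine ⟨z, ?_⟩
  set B' := B - vecMulVec z (star z) with hB'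
  have hvh : (vecMulVec z (star z))ᴴ = vecMulVec z (star z) := by
    rw [conjTranspose_vecMulVec, star_star]
  have h1 : B' * B' = B' := by
    rw [hB', sub_mul, mul_sub, mul_sub, hB2, mul_vecMulVec, hBz, vecMulVec_mul, hzB,
      vecMulVec_mul_vecMulVec, hzz]
    simp
  have h2 : B'ᴴ = B' := by rw [hB', conjTranspose_sub, hBh, hvh]
  have h3 : B'.trace = 0 := by
    rw [hB', trace_sub, htr, trace_vecMulVec, dotProduct_comm, hzz, sub_self]
  have h4 : (B'ᴴ * B').trace = 0 := by rw [h2, h1, h3]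
  have h5 : B' = 0 := trace_conjTranspose_mul_self_eq_zero_iff.1 h4
  exact sub_eq_zero.1 h5

/-- The other defect of a matrix with rank one defect has rank one. -/
lemma other_defect {n : ℕ} (T : Matrix (Fin n) (Fin n) ℂ) (k : Fin n → ℂ)
    (hk : 1 - T * Tᴴ = vecMulVec k (star k)) :
    ∃ k' : Fin n → ℂ, 1 - Tᴴ * T = vecMulVec k' (star k') := by
  set A : Matrix (Fin n) (Fin n ⊕ Unit) ℂ := Matrix.fromCols T (Matrix.of fun i _ => k i) with hA
  have hAA : A * Aᴴ = 1 := by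
    have : A * Aᴴ = T * Tᴴ + vecMulVec k (star k) := by
      ext i j
      simp [hA, Matrix.mul_apply, Fintype.sum_sum_type, vecMulVec_apply]
    rw [this, ← hk]; simp
  set B : Matrix (Fin n ⊕ Unit) (Fin n ⊕ Unit) ℂ := 1 - Aᴴ * A with hB
  have hB2 : B * B = B := by
    have : Aᴴ * A * (Aᴴ * A) = Aᴴ * A := by
      rw [Matrix.mul_assoc, ← Matrix.mul_assoc A, hAA, Matrix.one_mul]
    rw [hB, sub_mul, mul_sub, mul_sub, this]
    simp
  have hBh : Bᴴ = B := by
    rw [hB, conjTranspose_sub, conjTranspose_mul, conjTranspose_conjTranspose, conjTranspose_one]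
  have htr : B.trace = 1 := by
    rw [hB, trace_sub, trace_mul_comm, hAA, trace_one, trace_one]
    simp
  obtain ⟨z, hz⟩ := rank_one_proj B hB2 hBh htr
  refine ⟨fun i => z (Sum.inl i), ?_⟩
  ext i j
  have := congrFun (congrFun hz (Sum.inl i)) (Sum.inl j)
  simp [hB, hA, Matrix.mul_apply, vecMulVec_apply, Matrix.one_apply] at this
  simp [Matrix.mul_apply, vecMulVec_apply, Matrix.one_apply]
  exact this

end Pool.Agent.Work.MP_0ac5c2_an
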