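import Mathlib
import Pool.Agent.Work.MP_0ac5c2_an.PartA

set_option autoImplicit false

open Matrix Filter Topology Polynomial
open scoped ComplexOrder

namespace Pool.Agent.Work.MP_0ac5c2_an

lemma aeval_transpose {n : ℕ} (T : Matrix (Fin n) (Fin n) ℂ) (p : ℂ[X]) :
    aeval Tᵀ p = (aeval T p)ᵀ := by
  induction p using Polynomial.induction_on' with
  | add p q hp hq => simp [hp, hq]
  | monomial i a => simp [aeval_monomial, Matrix.transpose_pow, Algebra.algebraMap_eq_smul_one]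

lemma aeval_comm_self {n : ℕ} (T : Matrix (Fin n) (Fin n) ℂ) (p : ℂ[X]) :
    T * aeval T p = aeval T p * T := by
  have h1 : aeval T (X * p) = aeval T (p * X) := by rw [mul_comm]
  simpa using h1

/-- Gram matrix formula -/
lemma gram {n : ℕ} (T : Matrix (Fin n) (Fin n) ℂ) (k : Fin n → ℂ)
    (hk : 1 - T * Tᴴ = vecMulVec k (star k)) (p q : ℂ[X]) :
    star (aeval T q *ᵥ k) ⬝ᵥ (aeval T p *ᵥ k) =
      (aeval T p * (aeval T q)ᴴ).trace - (T * aeval T p * ((aeval T q)ᴴ * Tᴴ)).trace := by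
  have h1 : star (aeval T q *ᵥ k) ⬝ᵥ (aeval T p *ᵥ k) =
      (vecMulVec (aeval T p *ᵥ k) (star (aeval T q *ᵥ k))).trace := by
    rw [trace_vecMulVec, dotProduct_comm]
  have h2 : vecMulVec (aeval T p *ᵥ k) (star (aeval T q *ᵥ k)) =
      aeval T p * vecMulVec k (star k) * (aeval T q)ᴴ := by
    rw [mul_vecMulVec, vecMulVec_mul, star_mulVec]
  rw [h1, h2, ← hk, mul_sub, sub_mul, trace_sub, mul_one]
  congr 2
  have h3 : (aeval T q)ᴴ * Tᴴ = Tᴴ * (aeval T q)ᴴ := by
    rw [← conjTranspose_mul, ← conjTranspose_mul, aeval_comm_self]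
  rw [h3, aeval_comm_self]
  noncomm_ring

/-- The two Gram matrices agree. -/
lemma gram_eq {n : ℕ} (T : Matrix (Fin n) (Fin n) ℂ) (k k' : Fin n → ℂ)
    (hk : 1 - T * Tᴴ = vecMulVec k (star k))
    (hk' : 1 - Tᴴ * T = vecMulVec k' (star k')) (p q : ℂ[X]) :
    star (aeval Tᵀ q *ᵥ star k') ⬝ᵥ (aeval Tᵀ p *ᵥ star k') =
      star (aeval T q *ᵥ k) ⬝ᵥ (aeval T p *ᵥ k) := by
  have hS : 1 - Tᵀ * (Tᵀ)ᴴ = vecMulVec (star k') (star (star k')) := by
    have := congrArg Matrix.transpose hk'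
    rw [transpose_sub, transpose_mul, transpose_one, transpose_vecMulVec] at this
    rw [star_star, ← this]
    congr 2
  rw [gram T k hk, gram Tᵀ _ hS, aeval_transpose, aeval_transpose]
  have e1 : ((aeval T q)ᵀ)ᴴ = ((aeval T q)ᴴ)ᵀ := rfl
  have e2 : (Tᵀ)ᴴ = (Tᴴ)ᵀ := rfl
  rw [e1, e2, ← transpose_mul, ← transpose_mul, ← transpose_mul, ← transpose_mul, trace_transpose, trace_transpose,
    trace_mul_comm (aeval T q)ᴴ]
  congr 1
  have h3 : (aeval T q)ᴴ * Tᴴ = Tᴴ * (aeval T q)ᴴ := by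
    rw [← conjTranspose_mul, ← conjTranspose_mul, aeval_comm_self]
  rw [trace_mul_comm, h3, aeval_comm_self]

/-- A matrix with rank one defect and spectral radius less than one is unitarily equivalent
to its transpose. -/
lemma exists_W {n : ℕ} (T : Matrix (Fin n) (Fin n) ℂ) (k : Fin n → ℂ)
    (hT : Tendsto (fun N : ℕ => T ^ N) atTop (𝓝 0))
    (hk : 1 - T * Tᴴ = vecMulVec k (star k)) :
    ∃ W : Matrix (Fin n) (Fin n) ℂ, Wᴴ * W = 1 ∧ W * T = Tᵀ * W := by
  obtain ⟨k', hk'⟩ := other_defect T k hk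
  let v : ℂ[X] →ₗ[ℂ] (Fin n → ℂ) :=
    { toFun := fun p => aeval T p *ᵥ k
      map_add' := by intro p q; simp [add_mulVec]
      map_smul' := by intro c p; simp [smul_mulVec] }
  let v' : ℂ[X] →ₗ[ℂ] (Fin n → ℂ) :=
    { toFun := fun p => aeval Tᵀ p *ᵥ star k'
      map_add' := by intro p q; simp [add_mulVec]
      map_smul' := by intro c p; simp [smul_mulVec] }
  have hg : ∀ p q, star (v' q) ⬝ᵥ v' p = star (v q) ⬝ᵥ v p := gram_eq T k k' hk hk'
  have hker : ∀ p, v p = 0 → v' p = 0 := by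
    intro p hp
    rw [← dotProduct_star_self_eq_zero, hg, hp]; simp
  have hsurj : LinearMap.range v = ⊤ := LinearMap.range_eq_top.2 (fun u => cyclic T k hT hk u)
  obtain ⟨r, hr⟩ := v.exists_rightInverse_of_surjective hsurj
  have hr' : ∀ x, v (r x) = x := fun x => by
    have := LinearMap.congr_fun hr x
    simpa using this
  let L : (Fin n → ℂ) →ₗ[ℂ] (Fin n → ℂ) := v' ∘ₗ r
  have hL : ∀ p, L (v p) = v' p := by
    intro p
    have h0 : v (r (v p) - p) = 0 := by rw [map_sub, hr', sub_self]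
    have := hker _ h0
    rw [map_sub, sub_eq_zero] at this
    exact this
  set W := LinearMap.toMatrix' L with hW
  have hWv : ∀ x, W *ᵥ x = L x := by
    intro x
    rw [hW, LinearMap.toMatrix'_mulVec]
  have hWiso : ∀ x y, star (W *ᵥ y) ⬝ᵥ (W *ᵥ x) = star y ⬝ᵥ x := by
    intro x y
    rw [hWv, hWv, ← hr' x, ← hr' y, hL, hL, hg]
  refine ⟨W, ?_, ?_⟩
  · rw [Matrix.ext_iff_mulVec]
    intro x
    rw [one_mulVec, ← mulVec_mulVec]
    apply star_injective
    apply dotProduct_eq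
    intro y
    rw [star_mulVec, conjTranspose_conjTranspose, ← dotProduct_mulVec]
    exact hWiso y x
  · rw [Matrix.ext_iff_mulVec]
    intro x
    rw [← mulVec_mulVec, ← mulVec_mulVec, ← hr' x, hWv, hWv, hL]
    have h1 : T *ᵥ v (r x) = v (X * r x) := by
      simp [v, mulVec_mulVec]
    have h2 : Tᵀ *ᵥ v' (r x) = v' (X * r x) := by
      simp [v', mulVec_mulVec]
    rw [h1, h2, hL]

end Pool.Agent.Work.MP_0ac5c2_an
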