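import Mathlib
import Pool.Agent.Work.MP_0ac5c2_an.PartB

set_option autoImplicit false

open Matrix Filter Topology Polynomial
open scoped ComplexOrder

namespace Pool.Agent.Work.MP_0ac5c2_an

/-- No two orthogonal nonzero eigenvectors. -/
def NoOrth {n : ℕ} (M : Matrix (Fin n) (Fin n) ℂ) : Prop :=
  ¬ ∃ x y : Fin n → ℂ, ∃ a b : ℂ, x ≠ 0 ∧ y ≠ 0 ∧
          M *ᵥ x = a • x ∧ M *ᵥ y = b • y ∧ star x ⬝ᵥ y = 0

lemma intertwine {n : ℕ} (T W : Matrix (Fin n) (Fin n) ℂ) 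
    (hWT : W * T = Tᵀ * W) (p : ℂ[X]) : W * aeval T p = (aeval T p)ᵀ * W := by
  rw [← aeval_transpose]
  induction p using Polynomial.induction_on' with
  | add p q hp hq => simp [hp, hq, mul_add, add_mul]
  | monomial i a =>
    have h : ∀ i : ℕ, W * T ^ i = Tᵀ ^ i * W := by
      intro i
      induction i with
      | zero => simp
      | succ i ih => rw [pow_succ, ← mul_assoc, ih, mul_assoc, hWT, ← mul_assoc, ← pow_succ]
    simp only [aeval_monomial, Algebra.algebraMap_eq_smul_one, smul_mul_assoc, one_mul, mul_smul_comm, h]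

lemma intertwine_star {n : ℕ} (T W : Matrix (Fin n) (Fin n) ℂ) (hW : Wᴴ * W = 1)
    (hWT : W * T = Tᵀ * W) (q : ℂ[X]) : W * (aeval T q)ᴴ = ((aeval T q)ᴴ)ᵀ * W := by
  have hW2 : W * Wᴴ = 1 := mul_eq_one_comm.1 hW
  have h := congrArg conjTranspose (intertwine T W hWT q)
  rw [conjTranspose_mul, conjTranspose_mul] at h
  have h1 : W * ((aeval T q)ᴴ * Wᴴ) * W = W * (Wᴴ * ((aeval T q)ᵀ)ᴴ) * W := by rw [h]
  calc W * (aeval T q)ᴴ = W * ((aeval T q)ᴴ * Wᴴ) * W := by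
        rw [mul_assoc, mul_assoc, hW, mul_one]
    _ = W * (Wᴴ * ((aeval T q)ᵀ)ᴴ) * W := h1
    _ = ((aeval T q)ᵀ)ᴴ * W := by rw [← mul_assoc, hW2, one_mul]
    _ = ((aeval T q)ᴴ)ᵀ * W := rfl

lemma comm_W {n : ℕ} (T W M : Matrix (Fin n) (Fin n) ℂ) (hW : Wᴴ * W = 1)
    (hWT : W * T = Tᵀ * W) (p q : ℂ[X]) (hM : M = aeval T p + (aeval T q)ᴴ) (hMs : Mᵀ = M) :
    W * M = M * W := by
  conv_rhs => rw [← hMs]
  rw [hM, mul_add, intertwine T W hWT, intertwine_star T W hW hWT, transpose_add, add_mul]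

/-- eigenvectors in invariant subspaces -/
lemma exists_eig {n : ℕ} (M : Matrix (Fin n) (Fin n) ℂ) (V : Submodule ℂ (Fin n → ℂ))
    (hV : V ≠ ⊥) (hinv : ∀ x ∈ V, M *ᵥ x ∈ V) :
    ∃ x ∈ V, x ≠ 0 ∧ ∃ a : ℂ, M *ᵥ x = a • x := by
  have : Nontrivial V := Submodule.nontrivial_iff_ne_bot.2 hV
  let L : V →ₗ[ℂ] V := (Matrix.mulVecLin M).restrict (fun x hx => by simpa using hinv x hx)
  obtain ⟨a, ha⟩ := Module.End.exists_eigenvalue L
  obtain ⟨x, hx⟩ := ha.exists_hasEigenvector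
  refine ⟨x.1, x.2, ?_, a, ?_⟩
  · intro h0
    exact hx.2 (Subtype.ext h0)
  · have := congrArg Subtype.val hx.apply_eq_smul
    simpa [L] using this

lemma scalar_of_comm {n : ℕ} (hn : 0 < n) (M W : Matrix (Fin n) (Fin n) ℂ) (hW : Wᴴ * W = 1)
    (hc : W * M = M * W) (hno : NoOrth M) : ∃ c : ℂ, W = c • 1 := by
  have hW2 : W * Wᴴ = 1 := mul_eq_one_comm.1 hW
  have : Nonempty (Fin n) := ⟨⟨0, hn⟩⟩
  obtain ⟨x0, -, hx0, c, hcx0⟩ := exists_eig W ⊤ (by
    intro h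
    have : Nontrivial (Fin n → ℂ) := inferInstance
    exact top_ne_bot h) (by simp)
  refine ⟨c, ?_⟩
  by_contra hne
  set V1 := LinearMap.ker (Matrix.mulVecLin (W - c • 1)) with hV1
  set V2 := LinearMap.range (Matrix.mulVecLin (W - c • 1)) with hV2
  have hcomm : (W - c • 1) * M = M * (W - c • 1) := by
    rw [sub_mul, mul_sub, hc]; simp
  have h1 : V1 ≠ ⊥ := by
    intro h
    apply hx0
    have : x0 ∈ V1 := by
      simp [hV1, sub_mulVec, hcx0, smul_mulVec]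
    rw [h] at this
    simpa using this
  have h2 : V2 ≠ ⊥ := by
    intro h
    apply hne
    rw [LinearMap.range_eq_bot] at h
    have : W - c • 1 = 0 := by
      rw [Matrix.ext_iff_mulVec]
      intro v
      have := LinearMap.congr_fun h v
      rw [mulVecLin_apply] at this
      rw [this]; simp
    exact sub_eq_zero.1 this
  obtain ⟨x, hxV, hx0', a, hxa⟩ := exists_eig M V1 h1 (by
    intro x hx
    have hx' : (W - c • 1) *ᵥ x = 0 := hx
    change (W - c • 1) *ᵥ (M *ᵥ x) = 0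
    rw [mulVec_mulVec, hcomm, ← mulVec_mulVec, hx', mulVec_zero])
  obtain ⟨y, hyV, hy0, b, hyb⟩ := exists_eig M V2 h2 (by
    rintro _ ⟨z, rfl⟩
    refine ⟨M *ᵥ z, ?_⟩
    simp only [mulVecLin_apply, mulVec_mulVec, hcomm])
  apply hno
  refine ⟨x, y, a, b, hx0', hy0, hxa, hyb, ?_⟩
  obtain ⟨z, rfl⟩ := hyV
  have hx' : W *ᵥ x = c • x := by
    have : (W - c • 1) *ᵥ x = 0 := hxV
    rw [sub_mulVec, smul_mulVec, one_mulVec, sub_eq_zero] at this
    exact this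
  have hx'' : c • (Wᴴ *ᵥ x) = x := by
    rw [← mulVec_smul, ← hx', mulVec_mulVec, hW, one_mulVec]
  have hnorm : star c * c = 1 := by
    have e1 : star (W *ᵥ x) ⬝ᵥ (W *ᵥ x) = star x ⬝ᵥ x := by
      rw [star_mulVec, ← dotProduct_mulVec, mulVec_mulVec, hW, one_mulVec]
    rw [hx', star_smul, smul_dotProduct, dotProduct_smul, smul_eq_mul, smul_eq_mul, ← mul_assoc] at e1
    have hxx : star x ⬝ᵥ x ≠ 0 := by
      rw [Ne, dotProduct_star_self_eq_zero]; exact hx0'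
    exact mul_right_cancel₀ hxx (by rw [e1, one_mul])
  have hx3 : Wᴴ *ᵥ x = star c • x := by
    conv_rhs => rw [← hx'']
    rw [smul_smul, hnorm, one_smul]
  change star x ⬝ᵥ ((W - c • 1) *ᵥ z) = 0
  rw [star_dot_mulVec, conjTranspose_sub, conjTranspose_smul, conjTranspose_one, sub_mulVec, hx3,
    smul_mulVec, one_mulVec, sub_self]
  simp

/-- A complex symmetric matrix without orthogonal eigenvectors that satisfies the TTO criterion
for `T` has `T` symmetric. -/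
lemma T_symm {n : ℕ} (hn : 0 < n) (M T : Matrix (Fin n) (Fin n) ℂ) (k u v : Fin n → ℂ)
    (hMs : Mᵀ = M) (hno : NoOrth M)
    (hk : 1 - T * Tᴴ = vecMulVec k (star k))
    (hT : ∀ μ : ℂ, ∀ x : Fin n → ℂ, x ≠ 0 → T *ᵥ x = μ • x → ‖μ‖ < 1)
    (hM : M - T * M * Tᴴ = vecMulVec u (star k) + vecMulVec k (star v)) :
    Tᵀ = T ∧ ∃ p q : ℂ[X], M = aeval T p + (aeval T q)ᴴ := by
  have hT0 := tendsto_pow_zero T hT
  obtain ⟨p, hp⟩ := cyclic T k hT0 hk u
  obtain ⟨q, hq⟩ := cyclic T k hT0 hk v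
  have hMeq : M = aeval T p + (aeval T q)ᴴ := by
    have h := unique_displacement T (M - (aeval T p + (aeval T q)ᴴ)) hT0 (by
      have e1 : aeval T p - T * aeval T p * Tᴴ = vecMulVec u (star k) := by
        rw [aeval_comm_self, ← hp, ← mul_vecMulVec, ← hk, mul_sub]
        noncomm_ring
      have e2 : (aeval T q)ᴴ - T * (aeval T q)ᴴ * Tᴴ = vecMulVec k (star v) := by
        have h3 : (aeval T q)ᴴ * Tᴴ = Tᴴ * (aeval T q)ᴴ := by
          rw [← conjTranspose_mul, ← conjTranspose_mul, aeval_comm_self]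
        rw [mul_assoc, h3, ← hq, star_mulVec, ← vecMulVec_mul, ← hk, sub_mul]
        noncomm_ring
      have : M - (aeval T p + (aeval T q)ᴴ) - T * (M - (aeval T p + (aeval T q)ᴴ)) * Tᴴ =
        (M - T * M * Tᴴ) - (aeval T p - T * aeval T p * Tᴴ) -
          ((aeval T q)ᴴ - T * (aeval T q)ᴴ * Tᴴ) := by noncomm_ring
      rw [this, hM, e1, e2]
      abel)
    exact sub_eq_zero.1 h
  obtain ⟨W, hW, hWT⟩ := exists_W T k hT0 hk
  have hc := comm_W T W M hW hWT p q hMeq hMs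
  obtain ⟨c, rfl⟩ := scalar_of_comm hn M W hW hc hno
  refine ⟨?_, p, q, hMeq⟩
  have hc0 : c ≠ 0 := by
    rintro rfl
    have : Nonempty (Fin n) := ⟨⟨0, hn⟩⟩
    simp at hW
  have h1 : c • T = c • Tᵀ := by simpa using hWT
  exact (smul_right_injective _ hc0 h1).symm

end Pool.Agent.Work.MP_0ac5c2_an
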