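import Mathlib
import Pool.Agent.Work.MP_0ac5c2_an.PartC

set_option autoImplicit false

open Matrix Filter Topology Polynomial
open scoped ComplexOrder

namespace Pool.Agent.Work.MP_0ac5c2_an

lemma exists_unimod (α : ℂ) : ∃ e : ℂ, ‖e‖ = 1 ∧ α = ‖α‖ * e := by
  by_cases h : α = 0
  · exact ⟨1, by simp, by simp [h]⟩
  · refine ⟨α / ‖α‖, ?_, ?_⟩
    · rw [norm_div, Complex.norm_real, norm_norm, div_self (norm_ne_zero_iff.2 h)]
    · have : (‖α‖ : ℂ) ≠ 0 := by exact_mod_cast norm_ne_zero_iff.2 h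
      field_simp

lemma exists_Q {n : ℕ} (T : Matrix (Fin n) (Fin n) ℂ) (k : Fin n → ℂ) (hTs : Tᵀ = T)
    (hk : 1 - T * Tᴴ = vecMulVec k (star k)) :
    ∃ (γ : ℂ) (Q : Matrix (Fin n) (Fin n) ℂ), Qᵀ = Q ∧ Q * Qᴴ = 1 ∧ T = Q - γ • vecMulVec k k := by
  by_cases hk0 : k = 0
  · subst hk0
    refine ⟨0, T, hTs, ?_, by simp⟩
    have : 1 - T * Tᴴ = 0 := by rw [hk]; simp
    exact (sub_eq_zero.1 this).symm
  obtain ⟨i0, hi0⟩ : ∃ i, k i ≠ 0 := by
    by_contra hcon; push Not at hcon; exact hk0 (funext hcon)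
  have hThT : (Tᴴ)ᵀ = Tᴴ := by
    have : (Tᴴ)ᵀ = (Tᵀ)ᴴ := rfl
    rw [this, hTs]
  have hk2 : 1 - Tᴴ * T = vecMulVec (star k) k := by
    have := congrArg Matrix.transpose hk
    rw [transpose_sub, transpose_mul, transpose_one, transpose_vecMulVec, hThT, hTs] at this
    exact this
  -- T k̄ = α k
  have hcomm : vecMulVec k (star k) * T = T * vecMulVec (star k) k := by
    rw [← hk, ← hk2]; noncomm_ring
  obtain ⟨α, hα⟩ : ∃ α : ℂ, T *ᵥ star k = α • k := by
    refine ⟨(star k ᵥ* T) i0 / k i0, ?_⟩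
    ext i
    have := congrFun (congrFun hcomm i) i0
    rw [vecMulVec_mul, mul_vecMulVec, vecMulVec_apply, vecMulVec_apply] at this
    rw [Pi.smul_apply, smul_eq_mul]
    field_simp
    rw [← this]; ring
  have hTk : Tᴴ *ᵥ k = star α • star k := by
    have := congrArg star hα
    rw [star_mulVec, star_star, star_smul] at this
    rw [← this, ← mulVec_transpose, hThT]
  have hs0 : star k ⬝ᵥ k ≠ 0 := by
    rw [Ne, dotProduct_star_self_eq_zero]; exact hk0
  have hs : α * star α = 1 - star k ⬝ᵥ k := by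
    have h1 : (1 - T * Tᴴ) *ᵥ k = vecMulVec k (star k) *ᵥ k := by rw [hk]
    rw [sub_mulVec, one_mulVec, ← mulVec_mulVec, hTk, mulVec_smul, hα, vecMulVec_mulVec] at h1
    have h2 := congrFun h1 i0
    simp only [Pi.sub_apply, Pi.smul_apply, smul_eq_mul, op_smul_eq_smul] at h2
    have h3 : (α * star α - (1 - star k ⬝ᵥ k)) * k i0 = 0 := by
      linear_combination (-1 : ℂ) * h2
    have h4 := (mul_eq_zero.1 h3).resolve_right hi0
    exact sub_eq_zero.1 h4
  obtain ⟨e, he, hαe⟩ := exists_unimod α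
  set r : ℝ := ‖α‖ with hr
  have hr0 : 0 ≤ r := norm_nonneg _
  have hee : e * star e = 1 := by
    rw [Complex.star_def, Complex.mul_conj, Complex.normSq_eq_norm_sq, he]; simp
  have hsr : star k ⬝ᵥ k = 1 - (r : ℂ) ^ 2 := by
    have : α * star α = (r : ℂ) ^ 2 := by
      rw [hαe, star_mul]
      have : star (r : ℂ) = (r : ℂ) := by simp
      rw [this]
      linear_combination (r : ℂ) ^ 2 * hee
    rw [this] at hs
    rw [hs]; ring
  have hr1 : (1 + (r : ℂ)) ≠ 0 := by
    have : (0 : ℝ) < 1 + r := by positivity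
    exact_mod_cast this.ne'
  set γ : ℂ := e / (1 + r) with hγ
  have hγs : star γ = star e / (1 + r) := by
    rw [hγ, star_div₀]; simp
  have hmain : star γ * α + γ * star α + γ * star γ * (star k ⬝ᵥ k) = 1 := by
    have hαs : star α = r * star e := by
      rw [hαe, star_mul]
      simp [mul_comm]
    rw [hγs, hαs, hsr, hγ]
    conv_lhs => rw [hαe]
    field_simp
    linear_combination (r * (1 + r) + (r + 1) * (1 - r) + (r : ℂ) * (1 + r)) * hee + 0 * hee
  refine ⟨γ, T + γ • vecMulVec k k, ?_, ?_, by simp⟩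
  · rw [transpose_add, transpose_smul, transpose_vecMulVec, hTs]
  · rw [conjTranspose_add, conjTranspose_smul, conjTranspose_vecMulVec, add_mul, mul_add, mul_add]
    have hTT : T * Tᴴ = 1 - vecMulVec k (star k) := by rw [← hk]; simp
    have hkT : k ᵥ* Tᴴ = star α • star k := by
      rw [← mulVec_transpose, hThT, hTk]
    rw [hTT, mul_smul_comm, mul_vecMulVec, hα, smul_mul_assoc, vecMulVec_mul, hkT, smul_mul_assoc,
      mul_smul_comm, vecMulVec_mul_vecMulVec, smul_vecMulVec, vecMulVec_smul, dotProduct_comm k (star k)]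
    rw [vecMulVec_smul]
    generalize vecMulVec k (star k) = V
    generalize star k ⬝ᵥ k = s at hmain
    have h5 : star γ • α • V + (γ • star α • V + γ • star γ • s • V) = V := by
      have h6 : (star γ * α + γ * star α + γ * star γ * s) • V = V := by rw [hmain, one_smul]
      conv_rhs => rw [← h6]
      module
    rw [add_assoc, h5]
    abel

/-- The embedding of real matrices in complex matrices. -/
noncomputable def toC {n : ℕ} (H : Matrix (Fin n) (Fin n) ℝ) : Matrix (Fin n) (Fin n) ℂ :=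
  H.map (fun x => (x : ℂ))

lemma toC_herm {n : ℕ} (H : Matrix (Fin n) (Fin n) ℝ) (hH : Hᵀ = H) : (toC H)ᴴ = toC H := by
  ext i j
  have := congrFun (congrFun hH i) j
  simp only [transpose_apply] at this
  simp [toC, this]

lemma isUnit_one_sub {n : ℕ} (H : Matrix (Fin n) (Fin n) ℂ) (hH : Hᴴ = H) :
    IsUnit (1 - Complex.I • H) := by
  rw [← Matrix.mulVec_injective_iff_isUnit]
  rw [← Matrix.coe_mulVecLin, ← LinearMap.ker_eq_bot, LinearMap.ker_eq_bot']
  intro x hx
  rw [mulVecLin_apply, sub_mulVec, one_mulVec, smul_mulVec, sub_eq_zero] at hx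
  -- x = i H x
  have h1 : star x ⬝ᵥ x = Complex.I * (star x ⬝ᵥ (H *ᵥ x)) := by
    calc star x ⬝ᵥ x = star x ⬝ᵥ (Complex.I • H *ᵥ x) := by rw [← hx]
      _ = _ := by rw [dotProduct_smul, smul_eq_mul]
  have h2 : star (star x ⬝ᵥ (H *ᵥ x)) = star x ⬝ᵥ (H *ᵥ x) := by
    have : star (star x ⬝ᵥ (H *ᵥ x)) = star (H *ᵥ x) ⬝ᵥ x := by
      rw [← star_star x, star_dotProduct_star, star_star, star_star]
    rw [this, star_mulVec, hH, dotProduct_mulVec]
  have h3 : star (star x ⬝ᵥ x) = star x ⬝ᵥ x := by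
    rw [← star_dotProduct_star, star_star]
  have h4 := congrArg star h1
  rw [h3, star_mul, h2, h1] at h4
  have h5 : star x ⬝ᵥ (H *ᵥ x) = 0 := by
    simp only [Complex.star_def, Complex.conj_I] at h4
    have h6 : (2 * Complex.I) * (star x ⬝ᵥ (H *ᵥ x)) = 0 := by linear_combination h4
    have h7 : (2 * Complex.I) ≠ 0 := by simp
    exact (mul_eq_zero.1 h6).resolve_left h7
  rw [h5, mul_zero] at h1
  exact dotProduct_star_self_eq_zero.1 h1

lemma exists_unimod_det {n : ℕ} (Q : Matrix (Fin n) (Fin n) ℂ) :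
    ∃ c : ℂ, star c * c = 1 ∧ IsUnit (1 + c • Q) := by
  -- -c⁻¹ must avoid the spectrum
  have hfin : (spectrum ℂ Q).Finite := Matrix.finite_spectrum Q
  have hinf : (Metric.sphere (0 : ℂ) 1).Infinite := by
    have hne : ∀ m : ℕ, ((m : ℂ) - Complex.I) ≠ 0 := by
      intro m h
      have := congrArg Complex.im h
      simp at this
    refine Set.infinite_of_injective_forall_mem
      (f := fun m : ℕ => ((m : ℂ) + Complex.I) / ((m : ℂ) - Complex.I)) ?_ ?_
    · intro a b hab
      simp only at hab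
      rw [div_eq_div_iff (hne a) (hne b)] at hab
      have h1 : (2 * Complex.I) * ((b : ℂ) - a) = 0 := by linear_combination hab
      have h2 : (2 * Complex.I) ≠ 0 := by simp
      have h3 := (mul_eq_zero.1 h1).resolve_left h2
      have h4 : (b : ℂ) = a := sub_eq_zero.1 h3
      exact_mod_cast h4.symm
    · intro m
      have h1 : ‖((m : ℂ) + Complex.I)‖ = ‖((m : ℂ) - Complex.I)‖ := by
        have : ((m : ℂ) - Complex.I) = star ((m : ℂ) + Complex.I) := by
          simp [sub_eq_add_neg]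
        rw [this, norm_star]
      simp only [mem_sphere_iff_norm, sub_zero, norm_div, h1]
      exact div_self (norm_ne_zero_iff.2 (hne m))
  obtain ⟨d, hd1, hd2⟩ := hinf.exists_notMem_finite hfin
  have hd : ‖d‖ = 1 := by simpa using hd1
  have hd0 : d ≠ 0 := by rintro rfl; simp at hd
  refine ⟨-d⁻¹, ?_, ?_⟩
  · rw [Complex.star_def, mul_comm, Complex.mul_conj, Complex.normSq_eq_norm_sq]
    simp [hd]
  · rw [spectrum.notMem_iff] at hd2
    have : 1 + (-d⁻¹) • Q = (d⁻¹ • (1 : Matrix (Fin n) (Fin n) ℂ)) * (algebraMap ℂ _ d - Q) := by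
      rw [Algebra.algebraMap_eq_smul_one, smul_mul_assoc, one_mul, smul_sub, smul_smul, inv_mul_cancel₀ hd0,
        one_smul, neg_smul]
      abel
    rw [this]
    refine IsUnit.mul ?_ hd2
    exact (isUnit_one).smul (Units.mk0 d⁻¹ (inv_ne_zero hd0))

lemma exists_cayley {n : ℕ} (Q : Matrix (Fin n) (Fin n) ℂ) (hQs : Qᵀ = Q) (hQ : Q * Qᴴ = 1) :
    ∃ (c : ℂ) (H : Matrix (Fin n) (Fin n) ℝ), c ≠ 0 ∧ Hᵀ = H ∧
      c • Q = (1 + Complex.I • toC H) * (1 - Complex.I • toC H)⁻¹ := by
  obtain ⟨c, hc1, hc2⟩ := exists_unimod_det Q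
  have hc0 : c ≠ 0 := by rintro rfl; simp at hc1
  set R := c • Q with hR
  have hRs : Rᵀ = R := by rw [hR, transpose_smul, hQs]
  have hRR : R * Rᴴ = 1 := by
    rw [hR, conjTranspose_smul, smul_mul_smul_comm, hQ, mul_comm, hc1, one_smul]
  have hRR' : Rᴴ * R = 1 := mul_eq_one_comm.1 hRR
  set A := (1 + R)⁻¹ with hA
  have hdet : IsUnit (1 + R).det := (Matrix.isUnit_iff_isUnit_det _).1 hc2
  have hA1 : (1 + R) * A = 1 := Matrix.mul_nonsing_inv _ hdet
  have hA2 : A * (1 + R) = 1 := Matrix.nonsing_inv_mul _ hdet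
  -- B = i H
  set B := (R - 1) * A with hB
  have hAs : Aᵀ = A := by
    rw [hA, Matrix.transpose_nonsing_inv, transpose_add, transpose_one, hRs]
  have hAR : A * (R - 1) = (R - 1) * A := by
    have h1 : (1 + R) * (R - 1) = (R - 1) * (1 + R) := by noncomm_ring
    calc A * (R - 1) = A * ((R - 1) * (1 + R)) * A := by rw [mul_assoc, mul_assoc, hA1, mul_one]
      _ = A * ((1 + R) * (R - 1)) * A := by rw [h1]
      _ = (R - 1) * A := by rw [← mul_assoc A, hA2, one_mul]
  have hBs : Bᵀ = B := by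
    rw [hB, transpose_mul, hAs, transpose_sub, transpose_one, hRs, hAR]
  have hBh : Bᴴ = -B := by
    -- B* (1+R)* = (R-1)*;  multiply by R
    have h1 : (1 + Rᴴ) * Bᴴ = Rᴴ - 1 := by
      have : B * (1 + R) = R - 1 := by rw [hB, mul_assoc, hA2, mul_one]
      have := congrArg conjTranspose this
      simpa [conjTranspose_mul, conjTranspose_add, conjTranspose_sub] using this
    have h2 : (1 + R) * Bᴴ = 1 - R := by
      have : R * ((1 + Rᴴ) * Bᴴ) = R * (Rᴴ - 1) := by rw [h1]
      rw [← mul_assoc, mul_add, mul_one, hRR, mul_sub, hRR, mul_one] at this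
      rw [← this, add_comm]
    have h3 : (1 + R) * (-B) = 1 - R := by
      rw [hB, ← hAR, mul_neg, ← mul_assoc, hA1, one_mul]; abel
    calc Bᴴ = A * ((1 + R) * Bᴴ) := by rw [← mul_assoc, hA2, one_mul]
      _ = A * ((1 + R) * (-B)) := by rw [h2, h3]
      _ = -B := by rw [← mul_assoc, hA2, one_mul]
  refine ⟨c, Matrix.of fun i j => (B i j).im, hc0, ?_, ?_⟩
  · ext i j
    have := congrFun (congrFun hBs i) j
    simp only [transpose_apply] at this
    simp [this]
  · have hBi : Complex.I • toC (Matrix.of fun i j => (B i j).im) = B := by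
      ext i j
      have h1 := congrFun (congrFun hBs i) j
      have h2 := congrFun (congrFun hBh i) j
      simp only [transpose_apply, conjTranspose_apply, neg_apply] at h1 h2
      rw [h1] at h2
      have h3 : (B i j).re = 0 := by
        have := congrArg Complex.re h2
        simp at this
        linarith
      apply Complex.ext
      · simp [toC, h3]
      · simp [toC]
    rw [hBi]
    have h4 : 1 + B = (2 : ℂ) • (R * A) := by
      have : 1 + B = (1 + R) * A + (R - 1) * A := by rw [hA1]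
      rw [this, two_smul]; noncomm_ring
    have h5 : 1 - B = (2 : ℂ) • A := by
      have : 1 - B = (1 + R) * A - (R - 1) * A := by rw [hA1]
      rw [this, two_smul]; noncomm_ring
    have h6 : (1 - B) * ((2 : ℂ)⁻¹ • (1 + R)) = 1 := by
      rw [h5, smul_mul_smul_comm, hA2]; norm_num
    rw [Matrix.inv_eq_right_inv h6, h4, smul_mul_smul_comm, mul_assoc, hA2]
    norm_num
    exact hR.symm

end Pool.Agent.Work.MP_0ac5c2_an
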