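import Mathlib
import Pool.Agent.Work.MP_0ac5c2_an.PartD

set_option autoImplicit false

open Matrix Filter Topology Polynomial
open scoped ComplexOrder

namespace Pool.Agent.Work.MP_0ac5c2_an

/-- symmetric real matrix from its coordinates -/
noncomputable def Hmat {n : ℕ} (h : Sym2 (Fin n) → ℝ) : Matrix (Fin n) (Fin n) ℝ :=
  Matrix.of fun i j => h s(i, j)

/-- the parameter space -/
abbrev Par (n : ℕ) : Type := (Sym2 (Fin n) → ℝ) × (ℂ × (Fin n → ℂ)) × (Fin n → ℂ) × (Fin n → ℂ)

noncomputable def Tmat {n : ℕ} (e : Par n) : Matrix (Fin n) (Fin n) ℂ :=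
  (1 + Complex.I • toC (Hmat e.1)) * (1 - Complex.I • toC (Hmat e.1))⁻¹
    - e.2.1.1 • vecMulVec e.2.1.2 e.2.1.2

noncomputable def Mmat {n : ℕ} (e : Par n) : Matrix (Fin n) (Fin n) ℂ :=
  (∑ i : Fin n, e.2.2.1 i • Tmat e ^ (i : ℕ)) + ∑ i : Fin n, e.2.2.2 i • (Tmat e)ᴴ ^ (i : ℕ)

noncomputable def fpar {n : ℕ} (e : Par n) : Sym2 (Fin n) → ℂ :=
  fun s => Mmat e s.out.1 s.out.2

section
attribute [local instance] Matrix.linftyOpNormedRing Matrix.linftyOpNormedAlgebra

lemma contDiff_Hlin (n : ℕ) : ContDiff ℝ 1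
    (fun h : Sym2 (Fin n) → ℝ => (Complex.I • toC (Hmat h) : Matrix (Fin n) (Fin n) ℂ)) := by
  let L : (Sym2 (Fin n) → ℝ) →ₗ[ℝ] Matrix (Fin n) (Fin n) ℂ :=
    { toFun := fun h => Complex.I • toC (Hmat h)
      map_add' := by
        intro x y; ext i j; simp [toC, Hmat, mul_add]
      map_smul' := by
        intro c x; ext i j; simp [toC, Hmat]; ring }
  exact (LinearMap.toContinuousLinearMap L).contDiff

lemma contDiff_conjT (n : ℕ) : ContDiff ℝ 1
    (fun A : Matrix (Fin n) (Fin n) ℂ => Aᴴ) := by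
  let L : Matrix (Fin n) (Fin n) ℂ →ₗ[ℝ] Matrix (Fin n) (Fin n) ℂ :=
    { toFun := fun A => Aᴴ
      map_add' := by
        intro x y; simp
      map_smul' := by
        intro c x; ext i j; simp }
  exact (LinearMap.toContinuousLinearMap L).contDiff

lemma contDiff_diag (n : ℕ) : ContDiff ℝ 1
    (fun k : Fin n → ℂ => Matrix.diagonal k) := by
  let L : (Fin n → ℂ) →ₗ[ℝ] Matrix (Fin n) (Fin n) ℂ :=
    { toFun := fun k => Matrix.diagonal k
      map_add' := by
        intro x y; simp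
      map_smul' := by
        intro c x; ext i j; simp [diagonal_apply] }
  exact (LinearMap.toContinuousLinearMap L).contDiff

lemma contDiff_entry (n : ℕ) (i j : Fin n) : ContDiff ℝ 1
    (fun A : Matrix (Fin n) (Fin n) ℂ => A i j) := by
  let L : Matrix (Fin n) (Fin n) ℂ →ₗ[ℝ] ℂ :=
    { toFun := fun A => A i j
      map_add' := by
        intro x y; simp
      map_smul' := by
        intro c x; simp }
  exact (LinearMap.toContinuousLinearMap L).contDiff

lemma vecMulVec_eq {n : ℕ} (k : Fin n → ℂ) :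
    vecMulVec k k = diagonal k * (Matrix.of fun _ _ => 1) * diagonal k := by
  ext i j
  simp [vecMulVec_apply]

lemma contDiff_vmv (n : ℕ) : ContDiff ℝ 1
    (fun k : Fin n → ℂ => vecMulVec k k) := by
  simp only [vecMulVec_eq]
  exact ((contDiff_diag n).mul contDiff_const).mul (contDiff_diag n)

lemma contDiff_Tmat (n : ℕ) : ContDiff ℝ 1 (fun e : Par n => Tmat e) := by
  have h1 : ContDiff ℝ 1 (fun e : Par n => (Complex.I • toC (Hmat e.1) : Matrix (Fin n) (Fin n) ℂ)) :=
    (contDiff_Hlin n).comp contDiff_fst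
  have h2 : ContDiff ℝ 1 (fun e : Par n => (1 - Complex.I • toC (Hmat e.1) : Matrix (Fin n) (Fin n) ℂ)⁻¹) := by
    rw [contDiff_iff_contDiffAt]
    intro e
    have hu : IsUnit (1 - Complex.I • toC (Hmat e.1) : Matrix (Fin n) (Fin n) ℂ) := by
      apply isUnit_one_sub
      apply toC_herm
      ext i j
      simp [Hmat, Sym2.eq_swap]
    simp only [Matrix.nonsing_inv_eq_ringInverse]
    have h3 := contDiffAt_ringInverse ℝ (n := 1) hu.unit
    exact h3.comp e ((contDiff_const.sub h1).contDiffAt)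
  have h4 : ContDiff ℝ 1 (fun e : Par n => vecMulVec e.2.1.2 e.2.1.2) :=
    (contDiff_vmv n).comp (contDiff_snd.comp (contDiff_fst.comp contDiff_snd))
  have h5 : ContDiff ℝ 1 (fun e : Par n => e.2.1.1) :=
    (contDiff_fst.comp (contDiff_fst.comp contDiff_snd))
  exact ((contDiff_const.add h1).mul h2).sub (h5.smul h4)

lemma contDiff_fpar (n : ℕ) : ContDiff ℝ 1 (fun e : Par n => fpar e) := by
  rw [contDiff_pi]
  intro s
  have hT := contDiff_Tmat n
  have hTh : ContDiff ℝ 1 (fun e : Par n => (Tmat e)ᴴ) := (contDiff_conjT n).comp hT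
  have hM : ContDiff ℝ 1 (fun e : Par n => Mmat e) := by
    unfold Mmat
    have c1 : ∀ i : Fin n, ContDiff ℝ 1 (fun e : Par n => e.2.2.1 i) := fun i => by fun_prop
    have c2 : ∀ i : Fin n, ContDiff ℝ 1 (fun e : Par n => e.2.2.2 i) := fun i => by fun_prop
    have d1 : ∀ i : Fin n, ContDiff ℝ 1 (fun e : Par n => e.2.2.1 i • Tmat e ^ (i : ℕ)) :=
      fun i => (c1 i).smul (hT.pow _)
    have d2 : ∀ i : Fin n, ContDiff ℝ 1 (fun e : Par n => e.2.2.2 i • (Tmat e)ᴴ ^ (i : ℕ)) :=
      fun i => (c2 i).smul (hTh.pow _)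
    exact ContDiff.add (ContDiff.sum fun i _ => d1 i) (ContDiff.sum fun i _ => d2 i)
  exact (contDiff_entry n _ _).comp hM
end

lemma finrank_Par (n : ℕ) : Module.finrank ℝ (Par n) = (n + 1).choose 2 + 6 * n + 2 := by
  have h1 : Module.finrank ℝ (Fin n → ℂ) = 2 * n := by
    rw [Module.finrank_pi_fintype]; simp [Complex.finrank_real_complex, mul_comm]
  have h2 : Module.finrank ℝ (Sym2 (Fin n) → ℝ) = (n + 1).choose 2 := by
    rw [Module.finrank_pi, Sym2.card, Fintype.card_fin]
  rw [Module.finrank_prod, Module.finrank_prod, Module.finrank_prod, Module.finrank_prod, h1, h2,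
    Complex.finrank_real_complex]
  ring

lemma finrank_target (n : ℕ) : Module.finrank ℝ (Sym2 (Fin n) → ℂ) = 2 * (n + 1).choose 2 := by
  rw [Module.finrank_pi_fintype]
  simp [Complex.finrank_real_complex, Sym2.card, mul_comm]

lemma dense_compl (n : ℕ) (hn : 12 ≤ n) : Dense (Set.range (fun e : Par n => fpar e))ᶜ := by
  apply ContDiff.dense_compl_range_of_finrank_lt_finrank (contDiff_fpar n)
  rw [finrank_Par, finrank_target]
  have h : 6 * n + 2 < (n + 1).choose 2 := by
    have h3 : 2 * (n + 1).choose 2 = n * (n + 1) := by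
      rw [Nat.choose_two_right, Nat.add_sub_cancel, mul_comm (n + 1) n]
      exact Nat.two_mul_div_two_of_even (Nat.even_mul_succ_self n)
    nlinarith
  omega

end Pool.Agent.Work.MP_0ac5c2_an
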