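import Mathlib
import Pool.Agent.Work.MP_0ac5c2_an.PartE

set_option autoImplicit false

open Matrix Filter Topology Polynomial
open scoped ComplexOrder

namespace Pool.Agent.Work.MP_0ac5c2_an

lemma reduce_poly {n : ℕ} (hn : 0 < n) (A : Matrix (Fin n) (Fin n) ℂ) (p : ℂ[X]) :
    ∃ a : Fin n → ℂ, aeval A p = ∑ i : Fin n, a i • A ^ (i : ℕ) := by
  have : Nonempty (Fin n) := ⟨⟨0, hn⟩⟩
  have hmon := A.charpoly_monic
  have h1 : aeval A (p %ₘ A.charpoly) = aeval A p :=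
    Polynomial.aeval_modByMonic_eq_self_of_root (Matrix.aeval_self_charpoly A)
  have hdeg : (p %ₘ A.charpoly).natDegree < n := by
    have := Polynomial.natDegree_modByMonic_lt p hmon (by
      intro h
      have h2 := Matrix.charpoly_natDegree_eq_dim A
      rw [h] at h2
      simp at h2
      omega)
    rwa [Matrix.charpoly_natDegree_eq_dim, Fintype.card_fin] at this
  refine ⟨fun i => (p %ₘ A.charpoly).coeff i, ?_⟩
  rw [← h1, Polynomial.aeval_eq_sum_range' hdeg, Finset.sum_range]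

lemma mem_range {n : ℕ} (hn : 0 < n) (M T : Matrix (Fin n) (Fin n) ℂ) (k u v : Fin n → ℂ)
    (hMs : Mᵀ = M) (hno : NoOrth M)
    (hk : 1 - T * Tᴴ = vecMulVec k (star k))
    (hT : ∀ μ : ℂ, ∀ x : Fin n → ℂ, x ≠ 0 → T *ᵥ x = μ • x → ‖μ‖ < 1)
    (hM : M - T * M * Tᴴ = vecMulVec u (star k) + vecMulVec k (star v)) :
    ∃ e : Par n, Mmat e = M := by
  obtain ⟨hTs, p, q, hMeq⟩ := T_symm hn M T k u v hMs hno hk hT hM
  obtain ⟨γ, Q, hQs, hQ, hTQ⟩ := exists_Q T k hTs hk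
  obtain ⟨c, H, hc, hHs, hcQ⟩ := exists_cayley Q hQs hQ
  -- rescale
  set S := c • T with hS
  have hTS : T = c⁻¹ • S := by rw [hS, smul_smul, inv_mul_cancel₀ hc, one_smul]
  have hp : aeval T p = aeval S (p.comp (C c⁻¹ * X)) := by
    rw [aeval_comp, map_mul, aeval_C, aeval_X, Algebra.algebraMap_eq_smul_one, smul_mul_assoc, one_mul, ← hTS]
  have hq : aeval T q = aeval S (q.comp (C c⁻¹ * X)) := by
    rw [aeval_comp, map_mul, aeval_C, aeval_X, Algebra.algebraMap_eq_smul_one, smul_mul_assoc, one_mul, ← hTS]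
  obtain ⟨a, ha⟩ := reduce_poly hn S (p.comp (C c⁻¹ * X))
  obtain ⟨b, hb⟩ := reduce_poly hn S (q.comp (C c⁻¹ * X))
  refine ⟨(fun s => H s.out.1 s.out.2, (c * γ, k), a, fun i => star (b i)), ?_⟩
  have hH : Hmat (fun s : Sym2 (Fin n) => H s.out.1 s.out.2) = H := by
    ext i j
    simp only [Hmat, of_apply]
    have h1 : s((s(i, j)).out.1, (s(i, j)).out.2) = s(i, j) := by
      exact Quot.out_eq _
    rw [Sym2.eq_iff] at h1
    rcases h1 with ⟨h1, h2⟩ | ⟨h1, h2⟩
    · rw [h1, h2]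
    · rw [h1, h2]
      exact congrFun (congrFun hHs i) j
  have hTm : Tmat ((fun s => H s.out.1 s.out.2, (c * γ, k), a, fun i => star (b i)) : Par n) = S := by
    simp only [Tmat, hH]
    rw [← hcQ, hS, hTQ, smul_sub, smul_smul]
  simp only [Mmat, hTm]
  rw [hMeq, hp, hq, ha, hb, conjTranspose_sum]
  congr 1
  refine Finset.sum_congr rfl fun i _ => ?_
  rw [conjTranspose_smul (b i), conjTranspose_pow S]

/-- the symmetric matrix with given coordinates -/
noncomputable def symC {n : ℕ} (m : Sym2 (Fin n) → ℂ) : Matrix (Fin n) (Fin n) ℂ :=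
  Matrix.of fun i j => m s(i, j)

lemma symC_symm {n : ℕ} (m : Sym2 (Fin n) → ℂ) : (symC m)ᵀ = symC m := by
  ext i j
  simp [symC, Sym2.eq_swap]

lemma continuous_symC {n : ℕ} : Continuous (fun m : Sym2 (Fin n) → ℂ => symC m) := by
  apply continuous_matrix
  intro i j
  exact continuous_apply _

/-- the set of matrices without orthogonal eigenvectors is open -/
lemma isOpen_noOrth (n : ℕ) : IsOpen {m : Sym2 (Fin n) → ℂ | NoOrth (symC m)} := by
  rw [← isClosed_compl_iff]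
  -- compact set of pairs of unit vectors
  set S : Set (Fin n → ℂ) := {x | star x ⬝ᵥ x = 1} with hS
  have hScpt : IsCompact S := by
    refine Metric.isCompact_of_isClosed_isBounded ?_ ?_
    · exact isClosed_eq (by fun_prop) continuous_const
    · refine Metric.isBounded_iff_subset_closedBall 0 |>.2 ⟨1, ?_⟩
      intro x hx
      rw [mem_closedBall_zero_iff, pi_norm_le_iff_of_nonneg zero_le_one]
      intro i
      have h1 : star x ⬝ᵥ x = ((∑ i, ‖x i‖ ^ 2 : ℝ) : ℂ) := by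
        simp only [dotProduct, Pi.star_apply, Complex.star_def, Complex.conj_mul']
        push_cast; rfl
      have h2 : (∑ i, ‖x i‖ ^ 2 : ℝ) = 1 := by
        have : star x ⬝ᵥ x = 1 := hx
        rw [h1] at this
        exact_mod_cast this
      have h3 : ‖x i‖ ^ 2 ≤ 1 := by
        rw [← h2]
        exact Finset.single_le_sum (f := fun i => ‖x i‖ ^ 2) (fun i _ => by positivity) (Finset.mem_univ i)
      nlinarith [norm_nonneg (x i)]
  have hK : IsCompact (S ×ˢ S) := hScpt.prod hScpt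
  set Z : Set ((Sym2 (Fin n) → ℂ) × ((Fin n → ℂ) × (Fin n → ℂ))) :=
    {w | symC w.1 *ᵥ w.2.1 = (star w.2.1 ⬝ᵥ (symC w.1 *ᵥ w.2.1)) • w.2.1 ∧
      symC w.1 *ᵥ w.2.2 = (star w.2.2 ⬝ᵥ (symC w.1 *ᵥ w.2.2)) • w.2.2 ∧
      star w.2.1 ⬝ᵥ w.2.2 = 0} with hZ
  have hZc : IsClosed Z := by
    have hc := continuous_symC (n := n)
    refine IsClosed.inter ?_ (IsClosed.inter ?_ ?_)
    · refine isClosed_eq ?_ ?_ <;> fun_prop
    · refine isClosed_eq ?_ ?_ <;> fun_prop
    · refine isClosed_eq ?_ ?_ <;> fun_prop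
  set K : Set ((Fin n → ℂ) × (Fin n → ℂ)) := S ×ˢ S with hKdef
  have : CompactSpace K := isCompact_iff_compactSpace.1 hK
  set Z' : Set ((Sym2 (Fin n) → ℂ) × K) := {w | (w.1, w.2.1) ∈ Z} with hZ'
  have hZ'c : IsClosed Z' := hZc.preimage (by fun_prop)
  have hproj : {m : Sym2 (Fin n) → ℂ | NoOrth (symC m)}ᶜ = Prod.fst '' Z' := by
    ext m
    simp only [Set.mem_compl_iff, Set.mem_ofPred_eq, NoOrth, not_not, Set.mem_image, Prod.exists]
    constructor
    · rintro ⟨x, y, a, b, hx, hy, hxa, hyb, hxy⟩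
      -- normalise
      have norm : ∀ (x : Fin n → ℂ) (a : ℂ), x ≠ 0 → symC m *ᵥ x = a • x →
          ∃ c : ℂ, c • x ∈ S ∧
            symC m *ᵥ (c • x) = (star (c • x) ⬝ᵥ (symC m *ᵥ (c • x))) • (c • x) := by
        intro x a hx hxa
        have hc : (0 : ℂ) < star x ⬝ᵥ x := dotProduct_star_self_pos_iff.2 hx
        obtain ⟨hcre, hcim⟩ := Complex.pos_iff.1 hc
        set r : ℝ := (star x ⬝ᵥ x).re with hr
        have hceq : star x ⬝ᵥ x = (r : ℂ) := by
          apply Complex.ext <;> simp [hr]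
          exact hcim.symm
        have hsq : ((Real.sqrt r : ℝ) : ℂ) * ((Real.sqrt r : ℝ) : ℂ) = (r : ℂ) := by
          rw [← Complex.ofReal_mul, Real.mul_self_sqrt hcre.le]
        have hsne : ((Real.sqrt r : ℝ) : ℂ) ≠ 0 := by
          exact_mod_cast (Real.sqrt_pos.2 hcre).ne'
        have hzz : star (((Real.sqrt r : ℝ) : ℂ)⁻¹ • x) ⬝ᵥ (((Real.sqrt r : ℝ) : ℂ)⁻¹ • x) = 1 := by
          rw [star_smul, smul_dotProduct, dotProduct_smul, hceq, smul_eq_mul, smul_eq_mul, ← hsq]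
          simp only [Complex.star_def, map_inv₀, Complex.conj_ofReal]
          field_simp
        refine ⟨((Real.sqrt r : ℝ) : ℂ)⁻¹, hzz, ?_⟩
        have h1 : symC m *ᵥ (((Real.sqrt r : ℝ) : ℂ)⁻¹ • x) = a • (((Real.sqrt r : ℝ) : ℂ)⁻¹ • x) := by
          rw [mulVec_smul, hxa, smul_comm]
        rw [h1, dotProduct_smul, hzz, smul_eq_mul, mul_one]
      obtain ⟨c, hc1, hc2⟩ := norm x a hx hxa
      obtain ⟨d, hd1, hd2⟩ := norm y b hy hyb
      refine ⟨m, ⟨(c • x, d • y), ⟨hc1, hd1⟩⟩, ⟨hc2, hd2, ?_⟩, rfl⟩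
      simp only [star_smul, smul_dotProduct, dotProduct_smul, hxy, smul_zero]
    · rintro ⟨m', ⟨⟨x, y⟩, hx, hy⟩, ⟨h1, h2, h3⟩, rfl⟩
      have hne : ∀ x : Fin n → ℂ, x ∈ S → x ≠ 0 := by
        rintro x hx rfl
        simp [hS] at hx
      exact ⟨x, y, _, _, hne x hx, hne y hy, h1, h2, h3⟩
  rw [hproj]
  exact isClosedMap_fst_of_compactSpace _ hZ'c

/-- a base point -/
lemma exists_noOrth (n : ℕ) : ∃ m : Sym2 (Fin n) → ℂ, NoOrth (symC m) := by
  classical
  refine ⟨fun s => Complex.I + if s.IsDiag then (((s.out.1 : Fin n) : ℕ) : ℂ) else 0, ?_⟩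
  set M := symC (fun s : Sym2 (Fin n) =>
    Complex.I + if s.IsDiag then (((s.out.1 : Fin n) : ℕ) : ℂ) else 0) with hM
  have hMij : ∀ i j, M i j = Complex.I + if i = j then ((i : ℕ) : ℂ) else 0 := by
    intro i j
    simp only [hM, symC, of_apply, Sym2.mk_isDiag_iff]
    split_ifs with h
    · subst h
      have h1 : s((s(i, i)).out.1, (s(i, i)).out.2) = s(i, i) := Quot.out_eq _
      rw [Sym2.eq_iff] at h1
      rcases h1 with ⟨h1, h2⟩ | ⟨h1, h2⟩ <;> rw [h1]
    · rfl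
  have hMy : ∀ (y : Fin n → ℂ) (i : Fin n), (M *ᵥ y) i = Complex.I * (∑ j, y j) + (i : ℕ) * y i := by
    intro y i
    simp only [mulVec, dotProduct, hMij, add_mul, Finset.sum_add_distrib, Finset.mul_sum, ite_mul, zero_mul]
    simp
  -- eigenvectors have nonzero sum
  have hsum : ∀ (y : Fin n → ℂ) (b : ℂ), y ≠ 0 → M *ᵥ y = b • y → ∑ j, y j ≠ 0 := by
    intro y b hy hyb hs
    obtain ⟨i0, hi0⟩ : ∃ i, y i ≠ 0 := by
      by_contra hcon; push Not at hcon; exact hy (funext hcon)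
    have h1 : ∀ i : Fin n, ((i : ℕ) : ℂ) * y i = b * y i := by
      intro i
      have := congrFun hyb i
      rw [hMy, hs] at this
      simpa using this
    have h2 : ∀ i, i ≠ i0 → y i = 0 := by
      intro i hi
      by_contra hyi
      have e1 := mul_right_cancel₀ hyi (h1 i)
      have e2 := mul_right_cancel₀ hi0 (h1 i0)
      rw [← e2] at e1
      exact hi (Fin.ext (by exact_mod_cast e1))
    rw [Finset.sum_eq_single i0 (fun i _ hi => h2 i hi) (by simp)] at hs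
    exact hi0 hs
  rintro ⟨x, y, a, b, hx, hy, hxa, hyb, hxy⟩
  have e1 : star x ⬝ᵥ (M *ᵥ y) = 0 := by rw [hyb, dotProduct_smul, hxy, smul_zero]
  have e2 : star (M *ᵥ x) ⬝ᵥ y = 0 := by rw [hxa, star_smul, smul_dotProduct, hxy, smul_zero]
  have e3 : star x ⬝ᵥ (M *ᵥ y) - star (M *ᵥ x) ⬝ᵥ y =
      2 * Complex.I * (star (∑ j, x j) * ∑ j, y j) := by
    simp only [dotProduct, Pi.star_apply, hMy, star_add, star_mul, star_sum, Complex.star_def,
      Complex.conj_I, map_natCast, ← Finset.sum_sub_distrib]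
    have : ∀ i : Fin n, (starRingEnd ℂ) (x i) * (Complex.I * ∑ j, y j + (i : ℕ) * y i) -
        ((∑ j, (starRingEnd ℂ) (x j)) * -Complex.I + (starRingEnd ℂ) (x i) * (i : ℕ)) * y i =
        (starRingEnd ℂ) (x i) * (Complex.I * ∑ j, y j) + (∑ j, (starRingEnd ℂ) (x j)) * Complex.I * y i := by
      intro i; ring
    simp only [this, Finset.sum_add_distrib, ← Finset.sum_mul, ← Finset.mul_sum]
    ring
  rw [e1, e2, sub_zero] at e3
  have h4 : (2 * Complex.I) ≠ 0 := by simp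
  rcases mul_eq_zero.1 ((mul_eq_zero.1 e3.symm).resolve_left h4) with h | h
  · exact hsum x a hx hxa (star_eq_zero.1 h)
  · exact hsum y b hy hyb h

/-- For every `n ≥ 12` there is a complex symmetric matrix without orthogonal eigenvectors
that is not unitarily equivalent to a truncated Toeplitz operator. -/
theorem main (n : ℕ) (hn : 12 ≤ n) : ∃ M : Matrix (Fin n) (Fin n) ℂ, Mᵀ = M ∧ NoOrth M ∧
    ¬ ∃ T : Matrix (Fin n) (Fin n) ℂ, ∃ k u v : Fin n → ℂ,
        1 - T * Tᴴ = Matrix.vecMulVec k (star k) ∧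
        (∀ μ : ℂ, ∀ x : Fin n → ℂ, x ≠ 0 → T *ᵥ x = μ • x → ‖μ‖ < 1) ∧
        M - T * M * Tᴴ = Matrix.vecMulVec u (star k) + Matrix.vecMulVec k (star v) := by
  obtain ⟨m0, hm0⟩ := exists_noOrth n
  obtain ⟨m, hm1, hm2⟩ := (dense_compl n hn).inter_open_nonempty _ (isOpen_noOrth n) ⟨m0, hm0⟩
  refine ⟨symC m, symC_symm m, hm1, ?_⟩
  rintro ⟨T, k, u, v, hk, hT, hM⟩
  obtain ⟨e, he⟩ := mem_range (by omega) (symC m) T k u v (symC_symm m) hm1 hk hT hM
  apply hm2
  refine ⟨e, ?_⟩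
  funext s
  simp only [fpar, he, symC, of_apply]
  congr 1
  exact Quot.out_eq s

end Pool.Agent.Work.MP_0ac5c2_an
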